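import Mathlib

set_option autoImplicit false

open MeasureTheory ProbabilityTheory Real

namespace Pool.Agent.Lib_755967

/-- standard Gaussian measure on `ι → ℝ` -/
noncomputable abbrev gam (ι : Type*) [Fintype ι] : Measure (ι → ℝ) :=
  Measure.pi (fun _ : ι => gaussianReal 0 1)

variable {ι : Type*} [Fintype ι]

instance isGaussian_gam : IsGaussian (gam ι) := by
  have h := map_pi_eq_stdGaussian (ι := ι)
  have h2 : (gam ι) = (stdGaussian (EuclideanSpace ℝ ι)).map
      (EuclideanSpace.equiv ι ℝ : EuclideanSpace ℝ ι →L[ℝ] (ι → ℝ)) := by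
    rw [← h, Measure.map_map (by fun_prop) (by fun_prop)]
    conv_lhs => rw [← Measure.map_id (μ := gam ι)]
    rfl
  rw [h2]
  infer_instance

lemma integral_id_gam : ∫ x, id x ∂(gam ι) = 0 := by
  ext i
  have h : Integrable (id : (ι → ℝ) → (ι → ℝ)) (gam ι) := IsGaussian.integrable_id
  have := (ContinuousLinearMap.proj (R := ℝ) (φ := fun _ : ι => ℝ) i).integral_comp_comm h
  simp only [ContinuousLinearMap.proj_apply, id] at this
  simp only [id]
  rw [← this]
  rw [integral_comp_eval (μ := fun _ : ι => gaussianReal 0 1) (f := fun t : ℝ => t) (by fun_prop)]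
  simp

lemma exists_angle {c s : ℝ} (h : c ^ 2 + s ^ 2 = 1) : ∃ θ : ℝ, c = Real.cos θ ∧ s = Real.sin θ := by
  have h1 : ‖(⟨c, s⟩ : ℂ)‖ = 1 := by
    rw [Complex.norm_def, Complex.normSq_apply]
    rw [Real.sqrt_eq_one]
    simp only
    nlinarith
  refine ⟨Complex.arg ⟨c, s⟩, ?_, ?_⟩
  · rw [Complex.cos_arg (by rw [← norm_ne_zero_iff, h1]; norm_num), h1]
    simp
  · rw [Complex.sin_arg, h1]
    simp

lemma rot {c s : ℝ} (h : c ^ 2 + s ^ 2 = 1) :
    MeasurePreserving (fun p : (ι → ℝ) × (ι → ℝ) => (c • p.1 + s • p.2, -s • p.1 + c • p.2))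
      ((gam ι).prod (gam ι)) ((gam ι).prod (gam ι)) := by
  obtain ⟨θ, rfl, rfl⟩ := exists_angle h
  refine ⟨by fun_prop, ?_⟩
  exact IsGaussian.map_rotation_eq_self (integral_id_gam (ι := ι)) θ

lemma rot1 {c s : ℝ} (h : c ^ 2 + s ^ 2 = 1) :
    MeasurePreserving (fun p : (ι → ℝ) × (ι → ℝ) => c • p.1 + s • p.2)
      ((gam ι).prod (gam ι)) (gam ι) :=
  measurePreserving_fst.comp (rot h)

/-- resampling one coordinate -/
lemma resample [DecidableEq ι] (i : ι) :
    MeasurePreserving (fun p : (ι → ℝ) × ℝ => Function.update p.1 i p.2)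
      ((gam ι).prod (gaussianReal 0 1)) (gam ι) := by
  refine ⟨?_, ?_⟩
  · refine measurable_pi_iff.2 fun j => ?_
    by_cases hj : j = i
    · subst hj
      simp only [Function.update_self]
      fun_prop
    · simp only [Function.update_of_ne hj]
      fun_prop
  · symm
    refine Measure.pi_eq fun s hs => ?_
    rw [Measure.map_apply]
    · have : (fun p : (ι → ℝ) × ℝ => Function.update p.1 i p.2) ⁻¹' (Set.univ.pi s) =
          (Set.univ.pi (fun j => if j = i then Set.univ else s j)) ×ˢ (s i) := by
        ext ⟨x, t⟩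
        simp only [Set.mem_preimage, Set.mem_univ_pi, Set.mem_prod]
        constructor
        · intro h
          refine ⟨fun j => ?_, by simpa using h i⟩
          by_cases hj : j = i
          · simp [hj]
          · simpa [hj] using h j
        · rintro ⟨h1, h2⟩ j
          by_cases hj : j = i
          · subst hj; simpa using h2
          · simpa [hj] using h1 j
      rw [this, Measure.prod_prod, Measure.pi_pi]
      rw [← Finset.mul_prod_erase Finset.univ (fun j => gaussianReal 0 1 (s j)) (Finset.mem_univ i),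
        ← Finset.mul_prod_erase Finset.univ _ (Finset.mem_univ i)]
      simp only [if_true, measure_univ, one_mul]
      rw [mul_comm]
      congr 1
      refine Finset.prod_congr rfl fun j hj => ?_
      rw [if_neg (Finset.ne_of_mem_erase hj)]
    · refine measurable_pi_iff.2 fun j => ?_
      by_cases hj : j = i
      · subst hj
        simp only [Function.update_self]
        fun_prop
      · simp only [Function.update_of_ne hj]
        fun_prop
    · exact MeasurableSet.univ_pi hs

end Pool.Agent.Lib_755967
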