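import Mathlib
import Pool.Agent.Lib_755967.Gauss

set_option autoImplicit false

open MeasureTheory ProbabilityTheory Real

namespace Pool.Agent.Lib_755967

lemma mp_integral {α β : Type*} [MeasurableSpace α] [MeasurableSpace β] {μ : Measure α}
    {ν : Measure β} {f : α → β} (hf : MeasurePreserving f μ ν) {g : β → ℝ}
    (hg : AEStronglyMeasurable g ν) : ∫ x, g (f x) ∂μ = ∫ y, g y ∂ν := by
  rw [← hf.map_eq]
  exact (integral_map hf.measurable.aemeasurable (by rw [hf.map_eq]; exact hg)).symm

/-- one-dimensional Gaussian integration by parts -/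
lemma stein1 {φ φ' : ℝ → ℝ} {C : ℝ} (hd : ∀ t, HasDerivAt φ (φ' t) t) (hφ : ∀ t, |φ t| ≤ C)
    (hφ' : ∀ t, |φ' t| ≤ C) (hm : Measurable φ') :
    ∫ t, t * φ t ∂(gaussianReal 0 1) = ∫ t, φ' t ∂(gaussianReal 0 1) := by
  rw [integral_gaussianReal_eq_integral_smul (by norm_num),
    integral_gaussianReal_eq_integral_smul (by norm_num)]
  set p : ℝ → ℝ := gaussianPDFReal 0 1 with hp
  have hpe : ∀ t, p t = (√(2 * π))⁻¹ * rexp (-(1 / 2) * t ^ 2) := by
    intro t
    rw [hp, gaussianPDFReal_def]
    simp only [NNReal.coe_one, mul_one, sub_zero]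
    congr 2
    ring
  have hpd : ∀ t, HasDerivAt (fun t => - p t) (t * p t) t := by
    intro t
    have h1 : HasDerivAt (fun t : ℝ => -(1 / 2 : ℝ) * t ^ 2) (-t) t :=
      ((hasDerivAt_pow 2 t).const_mul (-(1 / 2 : ℝ))).congr_deriv (by norm_num; ring)
    have h2 := (h1.exp.const_mul ((√(2 * π))⁻¹)).neg
    have h3 : (fun t => - p t) = fun t => -((√(2 * π))⁻¹ * rexp (-(1 / 2) * t ^ 2)) := by
      ext t; rw [hpe]
    rw [h3]
    refine h2.congr_deriv ?_
    rw [hpe]
    ring
  have hcφ : Continuous φ := continuous_iff_continuousAt.2 fun t => (hd t).continuousAt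
  have hpi : Integrable p := integrable_gaussianPDFReal 0 1
  have htpi : Integrable (fun t => t * p t) := by
    have := (integrable_mul_exp_neg_mul_sq (b := 1 / 2) (by norm_num)).const_mul ((√(2 * π))⁻¹)
    refine this.congr (Filter.Eventually.of_forall fun t => ?_)
    simp only [hpe]
    ring
  have hi1 : Integrable (φ * fun t => t * p t) :=
    htpi.bdd_mul (c := C) hcφ.aestronglyMeasurable (Filter.Eventually.of_forall fun t => by
      rw [Real.norm_eq_abs]; exact hφ t)
  have hi2 : Integrable (φ' * fun t => - p t) :=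
    hpi.neg.bdd_mul (c := C) hm.aestronglyMeasurable (Filter.Eventually.of_forall fun t => by
      rw [Real.norm_eq_abs]; exact hφ' t)
  have hi3 : Integrable (φ * fun t => - p t) :=
    hpi.neg.bdd_mul (c := C) hcφ.aestronglyMeasurable (Filter.Eventually.of_forall fun t => by
      rw [Real.norm_eq_abs]; exact hφ t)
  have key := integral_mul_deriv_eq_deriv_mul_of_integrable (u := φ) (v := fun t => - p t)
    (u' := φ') (v' := fun t => t * p t) (fun t _ => hd t) (fun t _ => hpd t) hi1 hi2 hi3
  have e1 : ∫ t, p t • (t * φ t) = ∫ t, φ t * (t * p t) := by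
    congr 1; ext t; simp only [smul_eq_mul]; ring
  have e2 : ∫ t, p t • (φ' t) = - ∫ t, φ' t * (- p t) := by
    rw [← integral_neg]
    congr 1; ext t; simp only [smul_eq_mul]; ring
  rw [e1, e2, key]

variable {ι : Type*} [Fintype ι]

lemma integrable_coord (i : ι) : Integrable (fun x : ι → ℝ => x i) (gam ι) :=
  integrable_eval (μ := fun _ : ι => gaussianReal 0 1) IsGaussian.integrable_id

/-- Gaussian integration by parts in coordinate `i`. -/
lemma stein [DecidableEq ι] (i : ι) {ψ ψ' : (ι → ℝ) → ℝ} {C : ℝ}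
    (hψc : Continuous ψ) (hψ'c : Continuous ψ')
    (hd : ∀ (x : ι → ℝ) t, HasDerivAt (fun t => ψ (Function.update x i t))
      (ψ' (Function.update x i t)) t)
    (hψ : ∀ x, |ψ x| ≤ C) (hψ' : ∀ x, |ψ' x| ≤ C) :
    ∫ x, x i * ψ x ∂(gam ι) = ∫ x, ψ' x ∂(gam ι) := by
  have hR := resample (ι := ι) i
  have hi1 : Integrable (fun x : ι → ℝ => x i * ψ x) (gam ι) :=
    (integrable_coord i).mul_bdd (c := C) hψc.aestronglyMeasurable
      (Filter.Eventually.of_forall fun x => by rw [Real.norm_eq_abs]; exact hψ x)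
  have hi2 : Integrable ψ' (gam ι) := Integrable.of_bound hψ'c.aestronglyMeasurable C
      (Filter.Eventually.of_forall fun x => by rw [Real.norm_eq_abs]; exact hψ' x)
  rw [← mp_integral hR hi1.1, ← mp_integral hR hi2.1]
  have hi1' := (hR.integrable_comp hi1.1).2 hi1
  have hi2' := (hR.integrable_comp hi2.1).2 hi2
  change ∫ p, ((fun x : ι → ℝ => x i * ψ x) ∘ fun p : (ι → ℝ) × ℝ => Function.update p.1 i p.2) p
      ∂((gam ι).prod (gaussianReal 0 1)) =
    ∫ p, (ψ' ∘ fun p : (ι → ℝ) × ℝ => Function.update p.1 i p.2) p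
      ∂((gam ι).prod (gaussianReal 0 1))
  rw [integral_prod _ hi1', integral_prod _ hi2']
  congr 1
  ext x
  simp only [Function.comp_apply, Function.update_self]
  refine stein1 (C := C) (hd x) (fun t => hψ _) (fun t => hψ' _) ?_
  refine hψ'c.measurable.comp ?_
  exact (measurable_update x)

end Pool.Agent.Lib_755967
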