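import Mathlib
import Pool.Agent.Lib_755967.Gauss
import Pool.Agent.Lib_755967.Stein

set_option autoImplicit false

open MeasureTheory ProbabilityTheory Real
open scoped ENNReal

namespace Pool.Agent.Lib_755967

variable {ι : Type*} [Fintype ι]

/-- correlation of `g` at a pair of Gaussian vectors with correlation `ρ` (here `ρ² + σ² = 1`). -/
noncomputable def E2 (g : (ι → ℝ) → ℝ) (ρ σ : ℝ) : ℝ :=
  ∫ p, g p.1 * g (ρ • p.1 + σ • p.2) ∂((gam ι).prod (gam ι))

/-- the Ornstein-Uhlenbeck average -/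
noncomputable def PP (g : (ι → ℝ) → ℝ) (c s : ℝ) (x : ι → ℝ) : ℝ :=
  ∫ y, g (c • x + s • y) ∂(gam ι)

lemma integrable_bdd {α : Type*} [MeasurableSpace α] {μ : Measure α} [IsFiniteMeasure μ]
    {f : α → ℝ} {C : ℝ} (hf : Measurable f) (hb : ∀ x, |f x| ≤ C) : Integrable f μ :=
  Integrable.of_bound hf.aestronglyMeasurable C (Filter.Eventually.of_forall hb)

lemma measurable_PP {g : (ι → ℝ) → ℝ} (hg : Measurable g) (c s : ℝ) : Measurable (PP g c s) := by
  unfold PP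
  have : StronglyMeasurable (fun p : (ι → ℝ) × (ι → ℝ) => g (c • p.1 + s • p.2)) :=
    (hg.comp (by fun_prop)).stronglyMeasurable
  exact this.integral_prod_right.measurable

lemma abs_integral_le {α : Type*} [MeasurableSpace α] {μ : Measure α} [IsProbabilityMeasure μ]
    {f : α → ℝ} {C : ℝ} (hb : ∀ x, |f x| ≤ C) : |∫ x, f x ∂μ| ≤ C := by
  have := norm_integral_le_of_norm_le_const (μ := μ) (f := f) (C := C)
    (Filter.Eventually.of_forall hb)
  simpa using this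

lemma abs_PP_le {g : (ι → ℝ) → ℝ} {C : ℝ} (hb : ∀ x, |g x| ≤ C) (c s : ℝ) (x : ι → ℝ) :
    |PP g c s x| ≤ C := by
  unfold PP
  exact abs_integral_le fun y => hb _

/-- averaging over two independent Gaussians -/
lemma PP_two {g : (ι → ℝ) → ℝ} {C : ℝ} (hg : Measurable g) (hb : ∀ x, |g x| ≤ C) {a b σ : ℝ}
    (hσ : σ ≠ 0) (h : a ^ 2 + b ^ 2 = σ ^ 2) (z : ι → ℝ) :
    ∫ u, ∫ y, g (z + a • u + b • y) ∂(gam ι) ∂(gam ι) = ∫ y, g (z + σ • y) ∂(gam ι) := by
  have h1 : (a / σ) ^ 2 + (b / σ) ^ 2 = 1 := by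
    rw [div_pow, div_pow, ← add_div, h]
    field_simp
  have hm : Measurable (fun y : ι → ℝ => g (z + σ • y)) := hg.comp (by fun_prop)
  rw [← mp_integral (rot1 (ι := ι) h1) hm.aestronglyMeasurable]
  have hm2 : Measurable (fun p : (ι → ℝ) × (ι → ℝ) => g (z + a • p.1 + b • p.2)) :=
    hg.comp (by fun_prop)
  have hi := integrable_bdd (μ := (gam ι).prod (gam ι)) hm2 (fun p => hb _)
  rw [← integral_prod _ hi]
  congr 1
  ext p
  congr 1
  rw [smul_add, smul_smul, smul_smul, mul_div_cancel₀ _ hσ, mul_div_cancel₀ _ hσ, add_assoc]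

lemma sq_PP {g : (ι → ℝ) → ℝ} {C : ℝ} (hg : Measurable g) (hb : ∀ x, |g x| ≤ C) {c s σ : ℝ}
    (h : c ^ 2 + s ^ 2 = 1) (hσ : σ ≠ 0) (h2 : (c ^ 2) ^ 2 + σ ^ 2 = 1) :
    ∫ x, PP g c s x ^ 2 ∂(gam ι) = E2 g (c ^ 2) σ := by
  -- inner average
  set N : (ι → ℝ) → ℝ := fun z => ∫ y, g (z + s • y) ∂(gam ι) with hN
  have hNm : Measurable N := by
    have : StronglyMeasurable (fun p : (ι → ℝ) × (ι → ℝ) => g (p.1 + s • p.2)) :=
      (hg.comp (by fun_prop)).stronglyMeasurable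
    exact this.integral_prod_right.measurable
  have hNb : ∀ z, |N z| ≤ C := fun z => abs_integral_le fun y => hb _
  have hC : 0 ≤ C := (abs_nonneg _).trans (hb 0)
  have e1 : ∀ x, PP g c s x ^ 2 = ∫ y, g (c • x + s • y) * N (c • x) ∂(gam ι) := by
    intro x
    rw [integral_mul_const, pow_two]
    rfl
  simp_rw [e1]
  have hm1 : Measurable (fun p : (ι → ℝ) × (ι → ℝ) => g (c • p.1 + s • p.2) * N (c • p.1)) :=
    (hg.comp (by fun_prop)).mul (hNm.comp (by fun_prop))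
  have hi1 : Integrable (fun p : (ι → ℝ) × (ι → ℝ) => g (c • p.1 + s • p.2) * N (c • p.1))
      ((gam ι).prod (gam ι)) := integrable_bdd (C := C * C) hm1 (fun p => by
        rw [abs_mul]; exact mul_le_mul (hb _) (hNb _) (abs_nonneg _) hC)
  rw [← integral_prod (f := fun p : (ι → ℝ) × (ι → ℝ) => g (c • p.1 + s • p.2) * N (c • p.1)) hi1]
  -- rotate
  set Φ : (ι → ℝ) × (ι → ℝ) → ℝ := fun p => g p.1 * N ((c ^ 2) • p.1 + (-(c * s)) • p.2) with hΦ
  have hΦm : Measurable Φ := (hg.comp (by fun_prop)).mul (hNm.comp (by fun_prop))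
  have hrot := mp_integral (rot (ι := ι) h) hΦm.aestronglyMeasurable
  have e2 : ∀ p : (ι → ℝ) × (ι → ℝ), Φ (c • p.1 + s • p.2, -s • p.1 + c • p.2) =
      g (c • p.1 + s • p.2) * N (c • p.1) := by
    intro p
    simp only [hΦ]
    congr 2
    ext i
    simp only [Pi.add_apply, Pi.smul_apply, smul_eq_mul]
    have : c ^ 2 * (c * p.1 i + s * p.2 i) + -(c * s) * (-s * p.1 i + c * p.2 i) =
      c * p.1 i * (c ^ 2 + s ^ 2) := by ring
    rw [this, h, mul_one]
  simp_rw [e2] at hrot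
  rw [hrot]
  have hΦi : Integrable Φ ((gam ι).prod (gam ι)) := integrable_bdd (C := C * C) hΦm (fun p => by
        rw [abs_mul]; exact mul_le_mul (hb _) (hNb _) (abs_nonneg _) hC)
  rw [integral_prod _ hΦi]
  unfold E2
  have hm3 : Measurable (fun p : (ι → ℝ) × (ι → ℝ) => g p.1 * g ((c ^ 2) • p.1 + σ • p.2)) :=
    (hg.comp (by fun_prop)).mul (hg.comp (by fun_prop))
  have hi3 : Integrable (fun p : (ι → ℝ) × (ι → ℝ) => g p.1 * g ((c ^ 2) • p.1 + σ • p.2))
      ((gam ι).prod (gam ι)) := integrable_bdd (C := C * C) hm3 (fun p => by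
        rw [abs_mul]; exact mul_le_mul (hb _) (hb _) (abs_nonneg _) hC)
  rw [integral_prod _ hi3]
  congr 1
  ext x
  simp only [hΦ]
  rw [integral_const_mul, integral_const_mul]
  congr 1
  refine PP_two hg hb hσ ?_ _
  nlinarith

lemma E2_rec {g : (ι → ℝ) → ℝ} {C : ℝ} (hg : Measurable g) (hb : ∀ x, |g x| ≤ C) {ρ σ σ' l : ℝ}
    (h : ρ ^ 2 + σ ^ 2 = 1) (hσ : σ' ≠ 0) (h2 : (ρ ^ 2) ^ 2 + σ' ^ 2 = 1) (hl : 0 < l) :
    E2 g ρ σ ≤ l / 2 * ∫ x, g x ^ 2 ∂(gam ι) + 1 / (2 * l) * E2 g (ρ ^ 2) σ' := by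
  have hC : 0 ≤ C := (abs_nonneg _).trans (hb 0)
  rw [← sq_PP hg hb h hσ h2]
  unfold E2
  have hm3 : Measurable (fun p : (ι → ℝ) × (ι → ℝ) => g p.1 * g (ρ • p.1 + σ • p.2)) :=
    (hg.comp (by fun_prop)).mul (hg.comp (by fun_prop))
  have hi3 : Integrable (fun p : (ι → ℝ) × (ι → ℝ) => g p.1 * g (ρ • p.1 + σ • p.2))
      ((gam ι).prod (gam ι)) := integrable_bdd (C := C * C) hm3 (fun p => by
        rw [abs_mul]; exact mul_le_mul (hb _) (hb _) (abs_nonneg _) hC)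
  rw [integral_prod _ hi3]
  have e1 : ∀ x, ∫ y, g x * g (ρ • x + σ • y) ∂(gam ι) = g x * PP g ρ σ x := fun x => by
    rw [integral_const_mul]; rfl
  simp only [e1]
  have hPm := measurable_PP hg ρ σ
  have hPb := abs_PP_le hb ρ σ
  have i1 : Integrable (fun x => g x * PP g ρ σ x) (gam ι) :=
    integrable_bdd (C := C * C) (hg.mul hPm) (fun p => by
        rw [abs_mul]; exact mul_le_mul (hb _) (hPb _) (abs_nonneg _) hC)
  have i2 : Integrable (fun x => g x ^ 2) (gam ι) :=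
    integrable_bdd (C := C ^ 2) (hg.pow_const 2) (fun p => by
        rw [abs_pow]; exact pow_le_pow_left₀ (abs_nonneg _) (hb _) 2)
  have i3 : Integrable (fun x => PP g ρ σ x ^ 2) (gam ι) :=
    integrable_bdd (C := C ^ 2) (hPm.pow_const 2) (fun p => by
        rw [abs_pow]; exact pow_le_pow_left₀ (abs_nonneg _) (hPb _) 2)
  rw [← integral_const_mul, ← integral_const_mul, ← integral_add (i2.const_mul _) (i3.const_mul _)]
  refine integral_mono i1 ((i2.const_mul _).add (i3.const_mul _)) fun x => ?_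
  simp only
  have h4 : g x * PP g ρ σ x ≤ l / 2 * g x ^ 2 + 1 / (2 * l) * PP g ρ σ x ^ 2 := by
    have h5 : 0 ≤ (l * g x - PP g ρ σ x) ^ 2 / (2 * l) := by positivity
    have h6 : (l * g x - PP g ρ σ x) ^ 2 / (2 * l) =
        l / 2 * g x ^ 2 + 1 / (2 * l) * PP g ρ σ x ^ 2 - g x * PP g ρ σ x := by
      field_simp
      ring
    linarith
  exact h4

end Pool.Agent.Lib_755967
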