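import Mathlib
import Pool.Agent.Lib_755967.Gauss
import Pool.Agent.Lib_755967.Stein

set_option autoImplicit false

open MeasureTheory ProbabilityTheory Real

namespace Pool.Agent.Lib_755967

variable {ι : Type*} [Fintype ι] {S : Type*} [Fintype S]

/-- dot product -/
def dot (x y : ι → ℝ) : ℝ := ∑ i, x i * y i

lemma dot_comm (x y : ι → ℝ) : dot x y = dot y x := by
  unfold dot; exact Finset.sum_congr rfl fun i _ => mul_comm _ _

lemma dot_add_left (x y z : ι → ℝ) : dot (x + y) z = dot x z + dot y z := by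
  unfold dot; rw [← Finset.sum_add_distrib]
  exact Finset.sum_congr rfl fun i _ => by simp only [Pi.add_apply]; ring

lemma dot_sub_left (x y z : ι → ℝ) : dot (x - y) z = dot x z - dot y z := by
  unfold dot; rw [← Finset.sum_sub_distrib]
  exact Finset.sum_congr rfl fun i _ => by simp only [Pi.sub_apply]; ring

lemma dot_smul_left (c : ℝ) (x z : ι → ℝ) : dot (c • x) z = c * dot x z := by
  unfold dot; rw [Finset.mul_sum]
  exact Finset.sum_congr rfl fun i _ => by simp only [Pi.smul_apply, smul_eq_mul]; ring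

lemma dot_smul_right (c : ℝ) (x z : ι → ℝ) : dot x (c • z) = c * dot x z := by
  rw [dot_comm, dot_smul_left, dot_comm]

lemma dot_add_right (x y z : ι → ℝ) : dot x (y + z) = dot x y + dot x z := by
  rw [dot_comm, dot_add_left, dot_comm y, dot_comm z]

@[fun_prop]
lemma continuous_dot : Continuous (fun p : (ι → ℝ) × (ι → ℝ) => dot p.1 p.2) := by
  unfold dot; fun_prop

lemma abs_dot_le {x y : ι → ℝ} {C : ℝ} (hy : ∀ i, |y i| ≤ C) : |dot x y| ≤ C * ∑ i, |x i| := by
  unfold dot
  refine (Finset.abs_sum_le_sum_abs _ _).trans ?_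
  rw [Finset.mul_sum]
  refine Finset.sum_le_sum fun i _ => ?_
  rw [abs_mul, mul_comm]
  exact mul_le_mul_of_nonneg_right (hy i) (abs_nonneg _)

lemma integrable_l1 : Integrable (fun x : ι → ℝ => ∑ i, |x i|) (gam ι) :=
  integrable_finsetSum _ fun i _ => (integrable_coord i).abs

/-- partition function -/
noncomputable def Z (w : S → ℝ) (v : S → ι → ℝ) (x : ι → ℝ) : ℝ := ∑ σ, exp (w σ + dot x (v σ))

/-- free energy -/
noncomputable def L (w : S → ℝ) (v : S → ι → ℝ) (x : ι → ℝ) : ℝ := log (Z w v x)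

/-- Gibbs weights -/
noncomputable def Gb (w : S → ℝ) (v : S → ι → ℝ) (x : ι → ℝ) (σ : S) : ℝ :=
  exp (w σ + dot x (v σ)) / Z w v x

variable [Nonempty S]

lemma Z_pos (w : S → ℝ) (v : S → ι → ℝ) (x : ι → ℝ) : 0 < Z w v x :=
  Finset.sum_pos (fun σ _ => exp_pos _) Finset.univ_nonempty

omit [Nonempty S] in
lemma exp_le_Z (w : S → ℝ) (v : S → ι → ℝ) (x : ι → ℝ) (σ : S) :
    exp (w σ + dot x (v σ)) ≤ Z w v x :=
  Finset.single_le_sum (f := fun σ => exp (w σ + dot x (v σ))) (fun σ _ => (exp_pos _).le)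
    (Finset.mem_univ σ)

lemma Gb_nonneg (w : S → ℝ) (v : S → ι → ℝ) (x : ι → ℝ) (σ : S) : 0 ≤ Gb w v x σ :=
  div_nonneg (exp_pos _).le (Z_pos w v x).le

lemma Gb_le_one (w : S → ℝ) (v : S → ι → ℝ) (x : ι → ℝ) (σ : S) : Gb w v x σ ≤ 1 := by
  unfold Gb
  rw [div_le_one (Z_pos w v x)]
  exact exp_le_Z w v x σ

lemma sum_Gb (w : S → ℝ) (v : S → ι → ℝ) (x : ι → ℝ) : ∑ σ, Gb w v x σ = 1 := by
  unfold Gb
  rw [← Finset.sum_div]
  exact div_self (Z_pos w v x).ne'

omit [Nonempty S] in
lemma continuous_Z (w : S → ℝ) (v : S → ι → ℝ) : Continuous (Z w v) := by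
  unfold Z dot
  fun_prop

lemma continuous_L (w : S → ℝ) (v : S → ι → ℝ) : Continuous (L w v) := by
  unfold L
  exact (continuous_Z w v).log fun x => (Z_pos w v x).ne'

lemma continuous_Gb (w : S → ℝ) (v : S → ι → ℝ) (σ : S) : Continuous (fun x => Gb w v x σ) := by
  unfold Gb
  refine Continuous.div ?_ (continuous_Z w v) fun x => (Z_pos w v x).ne'
  unfold dot
  fun_prop

lemma abs_L_le {w : S → ℝ} {v : S → ι → ℝ} {A C : ℝ} (hw : ∀ σ, |w σ| ≤ A)
    (hv : ∀ σ i, |v σ i| ≤ C) (x : ι → ℝ) :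
    |L w v x| ≤ (log (Fintype.card S) + A) + C * ∑ i, |x i| := by
  obtain ⟨σ₀⟩ := ‹Nonempty S›
  have hcard : 0 ≤ log (Fintype.card S : ℝ) := Real.log_natCast_nonneg _
  have hA : 0 ≤ A := (abs_nonneg _).trans (hw σ₀)
  have hpt : ∀ σ, |w σ + dot x (v σ)| ≤ A + C * ∑ i, |x i| := fun σ =>
    (abs_add_le _ _).trans (add_le_add (hw σ) (abs_dot_le (hv σ)))
  rw [abs_le]
  constructor
  · have h1 : w σ₀ + dot x (v σ₀) ≤ L w v x := by
      unfold L
      rw [Real.le_log_iff_exp_le (Z_pos w v x)]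
      exact exp_le_Z w v x σ₀
    have h2 := (abs_le.1 (hpt σ₀)).1
    linarith
  · unfold L
    rw [Real.log_le_iff_le_exp (Z_pos w v x)]
    have h3 : Z w v x ≤ ∑ σ : S, exp (A + C * ∑ i, |x i|) :=
      Finset.sum_le_sum fun σ _ => exp_le_exp.2 (abs_le.1 (hpt σ)).2
    refine h3.trans ?_
    rw [Finset.sum_const, nsmul_eq_mul, Finset.card_univ, add_assoc,
      exp_add (log _) (A + _), Real.exp_log]
    exact_mod_cast Fintype.card_pos

omit [Nonempty S] in
lemma exists_bound (w : S → ℝ) : ∃ A : ℝ, ∀ σ, |w σ| ≤ A := by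
  refine ⟨∑ σ, |w σ|, fun σ => ?_⟩
  exact Finset.single_le_sum (f := fun σ => |w σ|) (fun σ _ => abs_nonneg _) (Finset.mem_univ σ)

omit [Nonempty S] in
lemma exists_bound2 (v : S → ι → ℝ) : ∃ A : ℝ, ∀ σ i, |v σ i| ≤ A := by
  refine ⟨∑ σ, ∑ i, |v σ i|, fun σ i => ?_⟩
  refine le_trans ?_ (Finset.single_le_sum (f := fun σ => ∑ i, |v σ i|)
    (fun σ _ => Finset.sum_nonneg fun _ _ => abs_nonneg _) (Finset.mem_univ σ))
  exact Finset.single_le_sum (f := fun i => |v σ i|) (fun i _ => abs_nonneg _) (Finset.mem_univ i)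

lemma integrable_L (w : S → ℝ) (v : S → ι → ℝ) : Integrable (L w v) (gam ι) := by
  obtain ⟨A, hA⟩ := exists_bound w
  obtain ⟨C, hC⟩ := exists_bound2 v
  refine Integrable.mono' (g := fun x => (log (Fintype.card S) + A) + C * ∑ i, |x i|) ?_
    (continuous_L w v).aestronglyMeasurable (Filter.Eventually.of_forall fun x => ?_)
  · exact (integrable_const _).add (integrable_l1.const_mul C)
  · rw [Real.norm_eq_abs]
    exact abs_L_le hA hC x

/-- Jensen for a Gibbs average -/
lemma jensen_Gb (w : S → ℝ) (v : S → ι → ℝ) (x : ι → ℝ) (a : S → ℝ) :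
    ∑ σ, Gb w v x σ * a σ ≤ log (∑ σ, Gb w v x σ * exp (a σ)) := by
  rw [Real.le_log_iff_exp_le]
  · have := convexOn_exp.map_sum_le (t := Finset.univ) (w := fun σ => Gb w v x σ) (p := a)
      (fun σ _ => Gb_nonneg w v x σ) (sum_Gb w v x) (fun σ _ => Set.mem_univ _)
    simpa only [smul_eq_mul] using this
  · refine Finset.sum_pos (fun σ _ => mul_pos (div_pos (exp_pos _) (Z_pos w v x)) (exp_pos _))
      Finset.univ_nonempty

/-- change of weights -/
lemma L_add (w a : S → ℝ) (v : S → ι → ℝ) (x : ι → ℝ) :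
    L (w + a) v x = L w v x + log (∑ σ, Gb w v x σ * exp (a σ)) := by
  have h1 : Z (w + a) v x = Z w v x * ∑ σ, Gb w v x σ * exp (a σ) := by
    unfold Gb
    rw [Finset.mul_sum]
    unfold Z
    refine Finset.sum_congr rfl fun σ _ => ?_
    have h2 : (∑ σ, exp (w σ + dot x (v σ))) ≠ 0 := (Z_pos w v x).ne'
    have h3 : exp ((w + a) σ + dot x (v σ)) = exp (w σ + dot x (v σ)) * exp (a σ) := by
      rw [← exp_add]; congr 1; simp only [Pi.add_apply]; ring
    rw [h3]
    field_simp
  unfold L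
  rw [h1, Real.log_mul (Z_pos w v x).ne']
  refine (Finset.sum_pos (fun σ _ => mul_pos (div_pos (exp_pos _) (Z_pos w v x)) (exp_pos _))
      Finset.univ_nonempty).ne'

/-- convexity: the tangent inequality -/
lemma tangent (w : S → ℝ) (v : S → ι → ℝ) (x y : ι → ℝ) :
    L w v x + ∑ σ, Gb w v x σ * dot (y - x) (v σ) ≤ L w v y := by
  have h := L_add w (fun σ => dot (y - x) (v σ)) v x
  have h2 : L (w + fun σ => dot (y - x) (v σ)) v x = L w v y := by
    unfold L Z
    congr 1
    refine Finset.sum_congr rfl fun σ _ => ?_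
    congr 1
    simp only [Pi.add_apply]
    rw [dot_sub_left]
    ring
  rw [← h2, h]
  have := jensen_Gb w v x (fun σ => dot (y - x) (v σ))
  linarith

lemma dot_update [DecidableEq ι] (x y : ι → ℝ) (i : ι) (t : ℝ) :
    dot (Function.update x i t) y = t * y i + (dot x y - x i * y i) := by
  unfold dot
  rw [← Finset.add_sum_erase _ _ (Finset.mem_univ i), ← Finset.add_sum_erase _ _ (Finset.mem_univ i)]
  simp only [Function.update_self]
  have : ∀ j ∈ Finset.univ.erase i, Function.update x i t j * y j = x j * y j := by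
    intro j hj
    rw [Function.update_of_ne (Finset.ne_of_mem_erase hj)]
  rw [Finset.sum_congr rfl this]
  ring

lemma hasDerivAt_dot_update [DecidableEq ι] (x y : ι → ℝ) (i : ι) (t : ℝ) :
    HasDerivAt (fun t => dot (Function.update x i t) y) (y i) t := by
  have : (fun t => dot (Function.update x i t) y) = fun t => t * y i + (dot x y - x i * y i) := by
    ext t; exact dot_update x y i t
  rw [this]
  exact (((hasDerivAt_id t).mul_const (y i)).add_const _).congr_deriv (by simp)

lemma hasDerivAt_Gb_update [DecidableEq ι] (w : S → ℝ) (v : S → ι → ℝ) (σ : S) (i : ι)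
    (x : ι → ℝ) (t : ℝ) :
    HasDerivAt (fun t => Gb w v (Function.update x i t) σ)
      (Gb w v (Function.update x i t) σ *
        (v σ i - ∑ τ, Gb w v (Function.update x i t) τ * v τ i)) t := by
  have hnum : ∀ τ, HasDerivAt (fun t => exp (w τ + dot (Function.update x i t) (v τ)))
      (exp (w τ + dot (Function.update x i t) (v τ)) * v τ i) t := fun τ =>
    ((hasDerivAt_dot_update x (v τ) i t).const_add (w τ)).exp
  have hZ : HasDerivAt (fun t => Z w v (Function.update x i t))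
      (∑ τ, exp (w τ + dot (Function.update x i t) (v τ)) * v τ i) t := by
    unfold Z
    exact HasDerivAt.fun_sum fun τ _ => hnum τ
  have hdiv := (hnum σ).fun_div hZ (Z_pos w v _).ne'
  unfold Gb
  refine hdiv.congr_deriv ?_
  have hz := (Z_pos w v (Function.update x i t)).ne'
  have hsum : ∑ τ, exp (w τ + dot (Function.update x i t) (v τ)) / Z w v (Function.update x i t) *
      v τ i = (∑ τ, exp (w τ + dot (Function.update x i t) (v τ)) * v τ i) /
        Z w v (Function.update x i t) := by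
    rw [Finset.sum_div]
    exact Finset.sum_congr rfl fun τ _ => by ring
  rw [hsum]
  field_simp

/-- Stein for the Gibbs weights. -/
lemma stein_Gb (w : S → ℝ) (v : S → ι → ℝ) (σ : S) (i : ι) :
    ∫ x, x i * Gb w v x σ ∂(gam ι) =
      ∫ x, Gb w v x σ * (v σ i - ∑ τ, Gb w v x τ * v τ i) ∂(gam ι) := by
  classical
  obtain ⟨C, hC⟩ := exists_bound2 v
  have hC0 : 0 ≤ C := (abs_nonneg _).trans (hC σ i)
  have havg : ∀ x, |∑ τ, Gb w v x τ * v τ i| ≤ C := by
    intro x
    refine (Finset.abs_sum_le_sum_abs _ _).trans ?_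
    calc ∑ τ, |Gb w v x τ * v τ i| ≤ ∑ τ, Gb w v x τ * C := by
          refine Finset.sum_le_sum fun τ _ => ?_
          rw [abs_mul, abs_of_nonneg (Gb_nonneg w v x τ)]
          exact mul_le_mul_of_nonneg_left (hC τ i) (Gb_nonneg w v x τ)
      _ = C := by rw [← Finset.sum_mul, sum_Gb, one_mul]
  refine stein i (C := 1 + 2 * C) (continuous_Gb w v σ) ?_ (fun x t => hasDerivAt_Gb_update w v σ i x t)
    ?_ ?_
  · refine (continuous_Gb w v σ).mul (continuous_const.sub ?_)
    exact continuous_finsetSum _ fun τ _ => (continuous_Gb w v τ).mul continuous_const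
  · intro x
    rw [abs_of_nonneg (Gb_nonneg w v x σ)]
    have := Gb_le_one w v x σ
    linarith
  · intro x
    rw [abs_mul, abs_of_nonneg (Gb_nonneg w v x σ)]
    have h1 : |v σ i - ∑ τ, Gb w v x τ * v τ i| ≤ 2 * C := by
      refine (abs_sub _ _).trans ?_
      have := hC σ i
      have := havg x
      linarith
    calc Gb w v x σ * |v σ i - ∑ τ, Gb w v x τ * v τ i| ≤ 1 * (2 * C) :=
          mul_le_mul (Gb_le_one w v x σ) h1 (abs_nonneg _) (by norm_num)
      _ ≤ 1 + 2 * C := by linarith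

end Pool.Agent.Lib_755967
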