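import Mathlib
import Pool.Agent.Lib_755967.Gauss
import Pool.Agent.Lib_755967.Stein
import Pool.Agent.Lib_755967.Lse

set_option autoImplicit false

open MeasureTheory ProbabilityTheory Real

namespace Pool.Agent.Lib_755967

variable {ι : Type*} [Fintype ι] {S : Type*} [Fintype S] [Nonempty S]

lemma integrable_Gb (w : S → ℝ) (v : S → ι → ℝ) (σ : S) :
    Integrable (fun x => Gb w v x σ) (gam ι) :=
  Integrable.of_bound (continuous_Gb w v σ).aestronglyMeasurable 1
    (Filter.Eventually.of_forall fun x => by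
      rw [Real.norm_eq_abs, abs_of_nonneg (Gb_nonneg w v x σ)]; exact Gb_le_one w v x σ)

lemma integrable_Gb_mul (w : S → ℝ) (v : S → ι → ℝ) (σ : S) {f : (ι → ℝ) → ℝ}
    (hf : Integrable f (gam ι)) : Integrable (fun x => Gb w v x σ * f x) (gam ι) :=
  hf.bdd_mul (c := 1) (continuous_Gb w v σ).aestronglyMeasurable
    (Filter.Eventually.of_forall fun x => by
      rw [Real.norm_eq_abs, abs_of_nonneg (Gb_nonneg w v x σ)]; exact Gb_le_one w v x σ)

/-- Gaussian interpolation. -/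
lemma interp {W W' : ℝ → S → ℝ} {V V' : ℝ → S → ι → ℝ} {C : ℝ}
    (hW : ∀ θ σ, HasDerivAt (fun θ => W θ σ) (W' θ σ) θ)
    (hV : ∀ θ σ i, HasDerivAt (fun θ => V θ σ i) (V' θ σ i) θ)
    (hWb : ∀ θ σ, |W' θ σ| ≤ C) (hVb : ∀ θ σ i, |V' θ σ i| ≤ C) (θ : ℝ) :
    HasDerivAt (fun θ => ∫ x, L (W θ) (V θ) x ∂(gam ι))
      (∫ x, (∑ σ, Gb (W θ) (V θ) x σ * (W' θ σ + dot (V' θ σ) (V θ σ))
        - ∑ σ, ∑ τ, Gb (W θ) (V θ) x σ * Gb (W θ) (V θ) x τ * dot (V' θ σ) (V θ τ))
        ∂(gam ι)) θ := by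
  -- pointwise derivative
  have hpt : ∀ (x : ι → ℝ) (θ : ℝ), HasDerivAt (fun θ => L (W θ) (V θ) x)
      (∑ σ, Gb (W θ) (V θ) x σ * (W' θ σ + dot x (V' θ σ))) θ := by
    intro x θ
    have h1 : ∀ σ, HasDerivAt (fun θ => exp (W θ σ + dot x (V θ σ)))
        (exp (W θ σ + dot x (V θ σ)) * (W' θ σ + dot x (V' θ σ))) θ := by
      intro σ
      refine HasDerivAt.exp ((hW θ σ).fun_add ?_)
      unfold dot
      exact HasDerivAt.fun_sum fun i _ => (hV θ σ i).const_mul (x i)
    have h2 : HasDerivAt (fun θ => Z (W θ) (V θ) x)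
        (∑ σ, exp (W θ σ + dot x (V θ σ)) * (W' θ σ + dot x (V' θ σ))) θ := by
      unfold Z
      exact HasDerivAt.fun_sum fun σ _ => h1 σ
    unfold L
    refine (h2.log (Z_pos _ _ _).ne').congr_deriv ?_
    rw [Finset.sum_div]
    refine Finset.sum_congr rfl fun σ _ => ?_
    unfold Gb
    ring
  have hbound : ∀ (x : ι → ℝ) (θ : ℝ),
      ‖∑ σ, Gb (W θ) (V θ) x σ * (W' θ σ + dot x (V' θ σ))‖ ≤ C + C * ∑ i, |x i| := by
    intro x θ
    rw [Real.norm_eq_abs]
    refine (Finset.abs_sum_le_sum_abs _ _).trans ?_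
    calc ∑ σ, |Gb (W θ) (V θ) x σ * (W' θ σ + dot x (V' θ σ))|
        ≤ ∑ σ, Gb (W θ) (V θ) x σ * (C + C * ∑ i, |x i|) := by
          refine Finset.sum_le_sum fun σ _ => ?_
          rw [abs_mul, abs_of_nonneg (Gb_nonneg _ _ x σ)]
          refine mul_le_mul_of_nonneg_left ?_ (Gb_nonneg _ _ x σ)
          exact (abs_add_le _ _).trans (add_le_add (hWb θ σ) (abs_dot_le (hVb θ σ)))
      _ = C + C * ∑ i, |x i| := by rw [← Finset.sum_mul, sum_Gb, one_mul]
  have hmeas : AEStronglyMeasurable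
      (fun x => ∑ σ, Gb (W θ) (V θ) x σ * (W' θ σ + dot x (V' θ σ))) (gam ι) := by
    refine Continuous.aestronglyMeasurable ?_
    refine continuous_finsetSum _ fun σ _ => (continuous_Gb _ _ σ).mul ?_
    unfold dot
    fun_prop
  have key := (hasDerivAt_integral_of_dominated_loc_of_deriv_le (μ := gam ι) (x₀ := θ)
    (F := fun θ x => L (W θ) (V θ) x) (s := Set.univ)
    (F' := fun θ x => ∑ σ, Gb (W θ) (V θ) x σ * (W' θ σ + dot x (V' θ σ)))
    (bound := fun x => C + C * ∑ i, |x i|) Filter.univ_mem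
    (Filter.Eventually.of_forall fun θ => (continuous_L (W θ) (V θ)).aestronglyMeasurable)
    (integrable_L (W θ) (V θ)) hmeas
    (Filter.Eventually.of_forall fun x θ _ => hbound x θ)
    ((integrable_const _).add (integrable_l1.const_mul C))
    (Filter.Eventually.of_forall fun x θ _ => hpt x θ)).2
  refine key.congr_deriv ?_
  -- rewrite with Stein
  have e1 : ∀ x : ι → ℝ, ∑ σ, Gb (W θ) (V θ) x σ * (W' θ σ + dot x (V' θ σ)) =
      ∑ σ, (W' θ σ * Gb (W θ) (V θ) x σ + ∑ i, V' θ σ i * (x i * Gb (W θ) (V θ) x σ)) := by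
    intro x
    refine Finset.sum_congr rfl fun σ _ => ?_
    rw [mul_add, mul_comm (W' θ σ)]
    congr 1
    unfold dot
    rw [Finset.mul_sum]
    exact Finset.sum_congr rfl fun i _ => by ring
  have e2 : ∀ x : ι → ℝ, (∑ σ, Gb (W θ) (V θ) x σ * (W' θ σ + dot (V' θ σ) (V θ σ))
        - ∑ σ, ∑ τ, Gb (W θ) (V θ) x σ * Gb (W θ) (V θ) x τ * dot (V' θ σ) (V θ τ)) =
      ∑ σ, (W' θ σ * Gb (W θ) (V θ) x σ +
        ∑ i, V' θ σ i * (Gb (W θ) (V θ) x σ * (V θ σ i - ∑ τ, Gb (W θ) (V θ) x τ * V θ τ i))) := by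
    intro x
    rw [← Finset.sum_sub_distrib]
    refine Finset.sum_congr rfl fun σ _ => ?_
    have h3 : ∑ τ, Gb (W θ) (V θ) x σ * Gb (W θ) (V θ) x τ * dot (V' θ σ) (V θ τ) =
        ∑ i, V' θ σ i * (Gb (W θ) (V θ) x σ * ∑ τ, Gb (W θ) (V θ) x τ * V θ τ i) := by
      unfold dot
      simp_rw [Finset.mul_sum]
      rw [Finset.sum_comm]
      exact Finset.sum_congr rfl fun i _ => Finset.sum_congr rfl fun τ _ => by ring
    have h4 : Gb (W θ) (V θ) x σ * dot (V' θ σ) (V θ σ) =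
        ∑ i, V' θ σ i * (Gb (W θ) (V θ) x σ * V θ σ i) := by
      unfold dot
      rw [Finset.mul_sum]
      exact Finset.sum_congr rfl fun i _ => by ring
    rw [mul_add, h3, h4]
    have h5 : ∑ i, V' θ σ i * (Gb (W θ) (V θ) x σ * (V θ σ i - ∑ τ, Gb (W θ) (V θ) x τ * V θ τ i)) =
        ∑ i, V' θ σ i * (Gb (W θ) (V θ) x σ * V θ σ i) -
        ∑ i, V' θ σ i * (Gb (W θ) (V θ) x σ * ∑ τ, Gb (W θ) (V θ) x τ * V θ τ i) := by
      rw [← Finset.sum_sub_distrib]
      exact Finset.sum_congr rfl fun i _ => by ring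
    rw [h5]
    ring
  rw [integral_congr_ae (Filter.Eventually.of_forall e1),
    integral_congr_ae (Filter.Eventually.of_forall e2)]
  have hxG : ∀ σ i, Integrable (fun x : ι → ℝ => x i * Gb (W θ) (V θ) x σ) (gam ι) := fun σ i =>
    (integrable_Gb_mul (W θ) (V θ) σ (integrable_coord i)).congr
      (Filter.Eventually.of_forall fun x => mul_comm _ _)
  have hGG : ∀ σ i, Integrable (fun x : ι → ℝ => Gb (W θ) (V θ) x σ *
      (V θ σ i - ∑ τ, Gb (W θ) (V θ) x τ * V θ τ i)) (gam ι) := fun σ i =>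
    integrable_Gb_mul (W θ) (V θ) σ ((integrable_const _).sub
      (integrable_finsetSum _ fun τ _ => (integrable_Gb (W θ) (V θ) τ).mul_const _))
  rw [integral_finsetSum, integral_finsetSum]
  · refine Finset.sum_congr rfl fun σ _ => ?_
    rw [integral_add, integral_add, integral_finsetSum, integral_finsetSum]
    · congr 1
      refine Finset.sum_congr rfl fun i _ => ?_
      rw [integral_const_mul, integral_const_mul, stein_Gb]
    · exact fun i _ => (hGG σ i).const_mul _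
    · exact fun i _ => (hxG σ i).const_mul _
    · exact (integrable_Gb (W θ) (V θ) σ).const_mul _
    · exact integrable_finsetSum _ fun i _ => (hGG σ i).const_mul _
    · exact (integrable_Gb (W θ) (V θ) σ).const_mul _
    · exact integrable_finsetSum _ fun i _ => (hxG σ i).const_mul _
  · exact fun σ _ => ((integrable_Gb (W θ) (V θ) σ).const_mul _).add
      (integrable_finsetSum _ fun i _ => (hGG σ i).const_mul _)
  · exact fun σ _ => ((integrable_Gb (W θ) (V θ) σ).const_mul _).add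
      (integrable_finsetSum _ fun i _ => (hxG σ i).const_mul _)

end Pool.Agent.Lib_755967
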