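import Mathlib
import Pool.Agent.Lib_755967.Gauss

set_option autoImplicit false

open MeasureTheory ProbabilityTheory Real
open scoped ENNReal

namespace Pool.Agent.Lib_755967

lemma bm_compact {K₁ K₂ C : Set ℝ} (h1 : IsCompact K₁) (h2 : IsCompact K₂)
    (n1 : K₁.Nonempty) (n2 : K₂.Nonempty) (hC : ∀ a ∈ K₁, ∀ b ∈ K₂, (a + b) / 2 ∈ C) :
    volume K₁ + volume K₂ ≤ 2 * volume C := by
  set a := sSup K₁ with ha
  set b := sInf K₂ with hb
  have haK : a ∈ K₁ := h1.sSup_mem n1
  have hbK : b ∈ K₂ := h2.sInf_mem n2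
  have haT : ∀ x ∈ K₁, x ≤ a := fun x hx => le_csSup h1.bddAbove hx
  have hbT : ∀ x ∈ K₂, b ≤ x := fun x hx => csInf_le h2.bddBelow hx
  set D : Set ℝ := (fun z => z * (1 / 2)) ⁻¹' C with hD
  have hDv : volume D = 2 * volume C := by
    rw [hD, Real.volume_preimage_mul_right (by norm_num)]
    congr 1
    norm_num
  have hsub : ((fun x => x + b) '' K₁) ∪ ((fun x => a + x) '' K₂) ⊆ D := by
    rintro z (⟨x, hx, rfl⟩ | ⟨x, hx, rfl⟩)
    · show (x + b) * (1 / 2) ∈ C
      have := hC x hx b hbK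
      rwa [div_eq_mul_one_div] at this
    · show (a + x) * (1 / 2) ∈ C
      have := hC a haK x hx
      rwa [div_eq_mul_one_div] at this
  have hv1 : volume ((fun x => x + b) '' K₁) = volume K₁ := by
    rw [Set.image_add_right, measure_preimage_add_right]
  have hv2 : volume ((fun x => a + x) '' K₂) = volume K₂ := by
    rw [Set.image_add_left, measure_preimage_add]
  have hdis : AEDisjoint volume ((fun x => x + b) '' K₁) ((fun x => a + x) '' K₂) := by
    refine measure_mono_null (t := {a + b}) ?_ (by simp)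
    rintro z ⟨⟨x, hx, rfl⟩, ⟨y, hy, hxy⟩⟩
    simp only at hxy
    have := haT x hx
    have := hbT y hy
    simp only [Set.mem_singleton_iff]
    linarith
  rw [← hv1, ← hv2, ← hDv, ← measure_union₀ _ hdis]
  · exact measure_mono hsub
  · exact (h2.image (by fun_prop)).measurableSet.nullMeasurableSet

lemma bm1 {A B C : Set ℝ} (hA : MeasurableSet A) (hB : MeasurableSet B)
    (nA : A.Nonempty) (nB : B.Nonempty) (hC : ∀ a ∈ A, ∀ b ∈ B, (a + b) / 2 ∈ C) :
    volume A + volume B ≤ 2 * volume C := by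
  obtain ⟨a₀, ha₀⟩ := nA
  obtain ⟨b₀, hb₀⟩ := nB
  have key : ∀ K₁ ⊆ A, IsCompact K₁ → ∀ K₂ ⊆ B, IsCompact K₂ →
      volume K₁ + volume K₂ ≤ 2 * volume C := by
    intro K₁ hK₁ h1 K₂ hK₂ h2
    have := bm_compact (h1.union (isCompact_singleton (x := a₀)))
      (h2.union (isCompact_singleton (x := b₀))) (by simp) (by simp) (C := C) ?_
    · refine le_trans (add_le_add ?_ ?_) this
      · exact measure_mono Set.subset_union_left
      · exact measure_mono Set.subset_union_left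
    · intro a ha b hb
      refine hC a ?_ b ?_
      · rcases ha with ha | ha
        · exact hK₁ ha
        · rw [Set.mem_singleton_iff] at ha; rw [ha]; exact ha₀
      · rcases hb with hb | hb
        · exact hK₂ hb
        · rw [Set.mem_singleton_iff] at hb; rw [hb]; exact hb₀
  rw [hA.measure_eq_iSup_isCompact, hB.measure_eq_iSup_isCompact]
  simp only [iSup_and', iSup_subtype']
  have : Nonempty {K : Set ℝ // K ⊆ A ∧ IsCompact K} := ⟨⟨∅, by simp⟩⟩
  have : Nonempty {K : Set ℝ // K ⊆ B ∧ IsCompact K} := ⟨⟨∅, by simp⟩⟩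
  refine ENNReal.iSup_add_iSup_le fun K₁ K₂ => ?_
  exact key K₁.1 K₁.2.1 K₁.2.2 K₂.1 K₂.2.1 K₂.2.2

lemma pl_norm {f g h : ℝ → ℝ} (hf : Measurable f) (hg : Measurable g) (hh : Measurable h)
    (f0 : ∀ x, 0 ≤ f x) (g0 : ∀ x, 0 ≤ g x) (h0 : ∀ x, 0 ≤ h x)
    (f1 : ∀ x, f x ≤ 1) (g1 : ∀ x, g x ≤ 1)
    (fs : ∀ t < 1, ∃ x, t < f x) (gs : ∀ t < 1, ∃ x, t < g x)
    (H : ∀ s t, f s * g t ≤ h ((s + t) / 2) ^ 2) :
    (∫⁻ x, ENNReal.ofReal (f x)) + (∫⁻ x, ENNReal.ofReal (g x)) ≤
      2 * ∫⁻ x, ENNReal.ofReal (h x) := by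
  rw [lintegral_eq_lintegral_meas_lt volume (Filter.Eventually.of_forall f0) hf.aemeasurable,
    lintegral_eq_lintegral_meas_lt volume (Filter.Eventually.of_forall g0) hg.aemeasurable,
    lintegral_eq_lintegral_meas_lt volume (Filter.Eventually.of_forall h0) hh.aemeasurable]
  have hanti : Antitone (fun t : ℝ => volume {a | t < f a}) := by
    intro s t hst
    exact measure_mono fun a ha => lt_of_le_of_lt hst ha
  rw [← lintegral_add_left hanti.measurable, ← lintegral_const_mul' _ _ (by norm_num)]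
  refine setLIntegral_mono' measurableSet_Ioi fun t ht => ?_
  rw [Set.mem_Ioi] at ht
  by_cases ht1 : t < 1
  · refine bm1 (hf measurableSet_Ioi) (hg measurableSet_Ioi) (fs t ht1) (gs t ht1) ?_
    intro a ha b hb
    have ha' : t < f a := ha
    have hb' : t < g b := hb
    show t < h ((a + b) / 2)
    have h1 : t ^ 2 < h ((a + b) / 2) ^ 2 := by
      refine lt_of_lt_of_le ?_ (H a b)
      nlinarith
    exact lt_of_pow_lt_pow_left₀ 2 (h0 _) h1
  · push Not at ht1
    have e1 : {a | t < f a} = ∅ := by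
      ext a
      simp only [Set.mem_ofPred_eq, Set.mem_empty_iff_false, iff_false, not_lt]
      exact (f1 a).trans ht1
    have e2 : {a | t < g a} = ∅ := by
      ext a
      simp only [Set.mem_ofPred_eq, Set.mem_empty_iff_false, iff_false, not_lt]
      exact (g1 a).trans ht1
    rw [e1, e2]
    simp

lemma ennreal_four_mul (a b : ℝ≥0∞) : 4 * (a * b) ≤ (a + b) ^ 2 := by
  wlog hab : a ≤ b with Hw
  · have := Hw b a (le_of_not_ge hab)
    rwa [mul_comm b a, add_comm b a] at this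
  obtain ⟨c, rfl⟩ := exists_add_of_le hab
  calc 4 * (a * (a + c)) ≤ 4 * (a * (a + c)) + c ^ 2 := le_self_add
    _ = (a + (a + c)) ^ 2 := by ring

/-- one-dimensional Prekopa-Leindler (midpoint form) with bounded `h`. -/
lemma pl {f g h : ℝ → ℝ≥0∞} (hf : Measurable f) (hg : Measurable g) (hh : Measurable h)
    (M : ℝ≥0∞) (hM : M ≠ ⊤) (hb : ∀ x, h x ≤ M)
    (H : ∀ s t, f s * g t ≤ h ((s + t) / 2) ^ 2) :
    (∫⁻ x, f x) * (∫⁻ x, g x) ≤ (∫⁻ x, h x) ^ 2 := by
  set F := ⨆ x, f x with hF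
  set G := ⨆ x, g x with hG
  have hfF : ∀ x, f x ≤ F := fun x => le_iSup f x
  have hgG : ∀ x, g x ≤ G := fun x => le_iSup g x
  by_cases F0 : F = 0
  · have : ∀ x, f x = 0 := fun x => le_antisymm ((hfF x).trans F0.le) zero_le
    simp [this]
  by_cases G0 : G = 0
  · have : ∀ x, g x = 0 := fun x => le_antisymm ((hgG x).trans G0.le) zero_le
    simp [this]
  have hFG : F * G ≤ M ^ 2 := by
    rw [hF, hG, ENNReal.iSup_mul]
    refine iSup_le fun s => ?_
    rw [ENNReal.mul_iSup]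
    refine iSup_le fun t => ?_
    exact (H s t).trans (pow_le_pow_left' (hb _) 2)
  have hFGt : F * G ≠ ⊤ := ne_top_of_le_ne_top (ENNReal.pow_ne_top hM) hFG
  have Ft : F ≠ ⊤ := by
    rintro h
    rw [h, ENNReal.top_mul G0] at hFGt
    exact hFGt rfl
  have Gt : G ≠ ⊤ := by
    rintro h
    rw [h, ENNReal.mul_top F0] at hFGt
    exact hFGt rfl
  set a : ℝ := F.toReal with ha
  set b : ℝ := G.toReal with hb'
  have apos : 0 < a := ENNReal.toReal_pos F0 Ft
  have bpos : 0 < b := ENNReal.toReal_pos G0 Gt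
  set κ : ℝ := Real.sqrt (a * b) with hκ
  have κpos : 0 < κ := Real.sqrt_pos.2 (mul_pos apos bpos)
  have κsq : κ ^ 2 = a * b := Real.sq_sqrt (mul_pos apos bpos).le
  have hft : ∀ x, f x ≠ ⊤ := fun x => ne_top_of_le_ne_top Ft (hfF x)
  have hgt : ∀ x, g x ≠ ⊤ := fun x => ne_top_of_le_ne_top Gt (hgG x)
  have hht : ∀ x, h x ≠ ⊤ := fun x => ne_top_of_le_ne_top hM (hb x)
  have hlt : ∀ (r : ℝ) (y : ℝ≥0∞), y ≠ ⊤ → ENNReal.ofReal r < y → r < y.toReal := by
    intro r y hy hr
    by_contra hc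
    push Not at hc
    have := ENNReal.ofReal_le_ofReal hc
    rw [ENNReal.ofReal_toReal hy] at this
    exact absurd hr (not_lt.2 this)
  have key := pl_norm (f := fun x => (f x).toReal / a) (g := fun x => (g x).toReal / b)
    (h := fun x => (h x).toReal / κ) (hf.ennreal_toReal.div_const _)
    (hg.ennreal_toReal.div_const _) (hh.ennreal_toReal.div_const _)
    (fun x => by positivity) (fun x => by positivity) (fun x => by positivity)
    (fun x => by
      rw [div_le_one apos]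
      exact ENNReal.toReal_mono Ft (hfF x))
    (fun x => by
      rw [div_le_one bpos]
      exact ENNReal.toReal_mono Gt (hgG x))
    (fun t ht => by
      have h1 : ENNReal.ofReal (t * a) < F := by
        rw [← ENNReal.ofReal_toReal Ft, ENNReal.ofReal_lt_ofReal_iff apos]
        nlinarith
      obtain ⟨x, hx⟩ := lt_iSup_iff.1 h1
      refine ⟨x, ?_⟩
      rw [lt_div_iff₀ apos]
      exact hlt _ _ (hft x) hx)
    (fun t ht => by
      have h1 : ENNReal.ofReal (t * b) < G := by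
        rw [← ENNReal.ofReal_toReal Gt, ENNReal.ofReal_lt_ofReal_iff bpos]
        nlinarith
      obtain ⟨x, hx⟩ := lt_iSup_iff.1 h1
      refine ⟨x, ?_⟩
      rw [lt_div_iff₀ bpos]
      exact hlt _ _ (hgt x) hx)
    (fun s t => by
      rw [div_pow, κsq, div_mul_div_comm]
      refine div_le_div_of_nonneg_right ?_ (mul_pos apos bpos).le
      rw [← ENNReal.toReal_mul, ← ENNReal.toReal_pow]
      exact ENNReal.toReal_mono (ENNReal.pow_ne_top (hht _)) (H s t))
  have conv : ∀ (φ : ℝ → ℝ≥0∞) (hφ : ∀ x, φ x ≠ ⊤) (c : ℝ), 0 < c →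
      ∫⁻ x, φ x = ENNReal.ofReal c * ∫⁻ x, ENNReal.ofReal ((φ x).toReal / c) := by
    intro φ hφ c hc
    rw [← lintegral_const_mul' _ _ ENNReal.ofReal_ne_top]
    refine lintegral_congr fun x => ?_
    rw [← ENNReal.ofReal_mul hc.le, mul_div_cancel₀ _ hc.ne', ENNReal.ofReal_toReal (hφ x)]
  rw [conv f hft a apos, conv g hgt b bpos, conv h hht κ κpos]
  set I := ∫⁻ x, ENNReal.ofReal ((f x).toReal / a)
  set J := ∫⁻ x, ENNReal.ofReal ((g x).toReal / b)
  set K := ∫⁻ x, ENNReal.ofReal ((h x).toReal / κ)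
  have h4 : 4 * (I * J) ≤ 4 * K ^ 2 := by
    calc 4 * (I * J) ≤ (I + J) ^ 2 := ennreal_four_mul I J
      _ ≤ (2 * K) ^ 2 := pow_le_pow_left' key 2
      _ = 4 * K ^ 2 := by ring
  have h5 : I * J ≤ K ^ 2 := (ENNReal.mul_le_mul_iff_right (by norm_num) (by norm_num)).1 h4
  calc ENNReal.ofReal a * I * (ENNReal.ofReal b * J)
      = ENNReal.ofReal (a * b) * (I * J) := by
        rw [ENNReal.ofReal_mul apos.le]; ring
    _ ≤ ENNReal.ofReal (a * b) * K ^ 2 := by gcongr
    _ = (ENNReal.ofReal κ * K) ^ 2 := by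
        rw [← κsq, ENNReal.ofReal_pow κpos.le]; ring

lemma tau1 {u v : ℝ → ℝ≥0∞} (hu : Measurable u) (hv : Measurable v) (C : ℝ) (hC : 0 ≤ C)
    (H : ∀ s t, u s * v t ≤ ENNReal.ofReal (C * rexp ((s - t) ^ 2 / 4))) :
    (∫⁻ x, u x ∂(gaussianReal 0 1)) * (∫⁻ x, v x ∂(gaussianReal 0 1)) ≤ ENNReal.ofReal C := by
  have hp : Measurable (gaussianPDF 0 1) := measurable_gaussianPDF 0 1
  rw [gaussianReal_of_var_ne_zero 0 (by norm_num),
    lintegral_withDensity_eq_lintegral_mul _ hp hu, lintegral_withDensity_eq_lintegral_mul _ hp hv]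
  have hpr : ∀ t, gaussianPDFReal 0 1 t = (√(2 * π))⁻¹ * rexp (-(1 / 2) * t ^ 2) := by
    intro t
    rw [gaussianPDFReal_def]
    simp only [NNReal.coe_one, mul_one, sub_zero]
    congr 2
    ring
  have hpr1 : ∀ t, gaussianPDFReal 0 1 t ≤ (√(2 * π))⁻¹ := by
    intro t
    rw [hpr]
    have : rexp (-(1 / 2) * t ^ 2) ≤ 1 := by
      rw [Real.exp_le_one_iff]
      nlinarith [sq_nonneg t]
    calc (√(2 * π))⁻¹ * rexp (-(1 / 2) * t ^ 2) ≤ (√(2 * π))⁻¹ * 1 := by gcongr
      _ = _ := mul_one _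
  have key := pl (f := gaussianPDF 0 1 * u) (g := gaussianPDF 0 1 * v)
    (h := fun x => ENNReal.ofReal (√C) * gaussianPDF 0 1 x) (hp.mul hu) (hp.mul hv)
    (hp.const_mul _) (ENNReal.ofReal (√C) * ENNReal.ofReal ((√(2 * π))⁻¹))
    (ENNReal.mul_ne_top ENNReal.ofReal_ne_top ENNReal.ofReal_ne_top)
    (fun x => by
      unfold gaussianPDF
      gcongr
      exact hpr1 x)
    (fun s t => by
      simp only [Pi.mul_apply]
      unfold gaussianPDF
      have e1 : ENNReal.ofReal (gaussianPDFReal 0 1 s) * u s *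
          (ENNReal.ofReal (gaussianPDFReal 0 1 t) * v t) =
          ENNReal.ofReal (gaussianPDFReal 0 1 s) * ENNReal.ofReal (gaussianPDFReal 0 1 t) *
            (u s * v t) := by ring
      rw [e1, ← ENNReal.ofReal_mul (gaussianPDFReal_nonneg _ _ _),
        ← ENNReal.ofReal_mul (Real.sqrt_nonneg _), ← ENNReal.ofReal_pow
          (mul_nonneg (Real.sqrt_nonneg _) (gaussianPDFReal_nonneg _ _ _))]
      refine (mul_le_mul_right (H s t) _).trans ?_
      rw [← ENNReal.ofReal_mul (mul_nonneg (gaussianPDFReal_nonneg _ _ _)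
        (gaussianPDFReal_nonneg _ _ _))]
      refine ENNReal.ofReal_le_ofReal (le_of_eq ?_)
      rw [mul_pow, Real.sq_sqrt hC, hpr, hpr, hpr]
      have e2 : (√(2 * π))⁻¹ * rexp (-(1 / 2) * s ^ 2) * ((√(2 * π))⁻¹ * rexp (-(1 / 2) * t ^ 2)) *
          (C * rexp ((s - t) ^ 2 / 4)) = C * ((√(2 * π))⁻¹ ^ 2 *
          (rexp (-(1 / 2) * s ^ 2) * rexp (-(1 / 2) * t ^ 2) * rexp ((s - t) ^ 2 / 4))) := by ring
      rw [e2, mul_pow, ← Real.exp_add, ← Real.exp_add, ← Real.exp_nat_mul]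
      congr 3
      push_cast
      ring)
  refine key.trans (le_of_eq ?_)
  rw [lintegral_const_mul _ hp, lintegral_gaussianPDF_eq_one 0 (by norm_num), mul_one,
    ← ENNReal.ofReal_pow (Real.sqrt_nonneg _), Real.sq_sqrt hC]

variable {ι : Type*} [Fintype ι]

lemma tau_marginal [DecidableEq ι] {u v : (ι → ℝ) → ℝ≥0∞} (hu : Measurable u) (hv : Measurable v)
    (H : ∀ x y, u x * v y ≤ ENNReal.ofReal (rexp (∑ i, (x i - y i) ^ 2 / 4))) (s : Finset ι) :
    ∀ x y, (∫⋯∫⁻_s, u ∂(fun _ : ι => gaussianReal 0 1)) x *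
      (∫⋯∫⁻_s, v ∂(fun _ : ι => gaussianReal 0 1)) y ≤
      ENNReal.ofReal (rexp (∑ i ∈ sᶜ, (x i - y i) ^ 2 / 4)) := by
  induction s using Finset.induction_on with
  | empty =>
    intro x y
    rw [lmarginal_empty, lmarginal_empty, Finset.compl_empty]
    exact H x y
  | insert i s hi ih =>
    intro x y
    rw [lmarginal_insert u hu hi, lmarginal_insert v hv hi]
    refine tau1 ?_ ?_ _ (exp_pos _).le ?_
    · exact (Measurable.lmarginal _ hu).comp (measurable_update x)
    · exact (Measurable.lmarginal _ hv).comp (measurable_update y)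
    · intro a b
      refine (ih _ _).trans (le_of_eq ?_)
      rw [← Real.exp_add]
      congr 2
      have hmem : i ∈ sᶜ := Finset.mem_compl.2 hi
      rw [← Finset.add_sum_erase _ _ hmem]
      have hc : (insert i s)ᶜ = sᶜ.erase i := by
        ext j; simp [not_or, and_comm]
      rw [hc, add_comm]
      simp only [Function.update_self]
      congr 1
      refine Finset.sum_congr rfl fun j hj => ?_
      have hji := Finset.ne_of_mem_erase hj
      rw [Function.update_of_ne hji, Function.update_of_ne hji]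

/-- Maurey's property `(τ)` for the Gaussian measure. -/
lemma tau {u v : (ι → ℝ) → ℝ≥0∞} (hu : Measurable u) (hv : Measurable v)
    (H : ∀ x y, u x * v y ≤ ENNReal.ofReal (rexp (∑ i, (x i - y i) ^ 2 / 4))) :
    (∫⁻ x, u x ∂(gam ι)) * (∫⁻ x, v x ∂(gam ι)) ≤ 1 := by
  classical
  have := tau_marginal hu hv H Finset.univ 0 0
  rw [lmarginal_univ, lmarginal_univ, Finset.compl_univ] at this
  simpa using this

end Pool.Agent.Lib_755967
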