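import Mathlib
import Pool.Agent.Lib_755967.Gauss
import Pool.Agent.Lib_755967.Stein
import Pool.Agent.Lib_755967.Lse
import Pool.Agent.Lib_755967.Interp
import Pool.Agent.Lib_755967.Tau

set_option autoImplicit false

open MeasureTheory ProbabilityTheory Real
open scoped ENNReal

namespace Pool.Agent.Lib_755967

variable {ι : Type*} [Fintype ι]

lemma exp_dot_eq (x a : ι → ℝ) : rexp (dot x a) = ∏ i, rexp (a i * x i) := by
  unfold dot
  rw [Real.exp_sum]
  exact Finset.prod_congr rfl fun i _ => by rw [mul_comm]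

lemma integrable_exp_dot (a : ι → ℝ) : Integrable (fun x => rexp (dot x a)) (gam ι) := by
  have : (fun x => rexp (dot x a)) = fun x : ι → ℝ => ∏ i, (fun i (t : ℝ) => rexp (a i * t)) i (x i) := by
    ext x; exact exp_dot_eq x a
  rw [this]
  exact Integrable.fintype_prod (μ := fun _ : ι => gaussianReal 0 1)
    fun i => integrable_exp_mul_gaussianReal (a i)

lemma integral_exp_dot (a : ι → ℝ) : ∫ x, rexp (dot x a) ∂(gam ι) = rexp (dot a a / 2) := by
  have : (fun x => rexp (dot x a)) = fun x : ι → ℝ => ∏ i, (fun i (t : ℝ) => rexp (a i * t)) i (x i) := by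
    ext x; exact exp_dot_eq x a
  have h0 := integral_fintype_prod_eq_prod (𝕜 := ℝ) (μ := fun _ : ι => gaussianReal 0 1)
    (f := fun i t => rexp (a i * t))
  rw [this]
  refine h0.trans ?_
  have h1 : ∀ i, ∫ t, rexp (a i * t) ∂(gaussianReal 0 1) = rexp (a i ^ 2 / 2) := by
    intro i
    have := mgf_gaussianReal (p := gaussianReal 0 1) (X := id) (μ := 0) (v := 1) (by simp) (a i)
    unfold mgf at this
    simpa using this
  simp only [h1]
  rw [← Real.exp_sum]
  congr 1
  unfold dot
  rw [Finset.sum_div]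
  exact Finset.sum_congr rfl fun i _ => by ring

lemma jensen_log {α : Type*} [MeasurableSpace α] {μ : Measure α} [IsProbabilityMeasure μ]
    {Y : α → ℝ} (hY : ∀ x, 0 < Y x) (hi : Integrable Y μ) (hl : Integrable (fun x => log (Y x)) μ) :
    ∫ x, log (Y x) ∂μ ≤ log (∫ x, Y x ∂μ) := by
  have hpos : 0 < ∫ x, Y x ∂μ := by
    rw [integral_pos_iff_support_of_nonneg (fun x => (hY x).le) hi]
    have : Function.support Y = Set.univ := by
      ext x; simp [(hY x).ne']
    rw [this]
    simp
  set a := ∫ x, Y x ∂μ with ha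
  have h1 : ∀ x, log (Y x) ≤ Y x / a + (log a - 1) := by
    intro x
    have := Real.log_le_sub_one_of_pos (div_pos (hY x) hpos)
    rw [Real.log_div (hY x).ne' hpos.ne'] at this
    linarith
  calc ∫ x, log (Y x) ∂μ ≤ ∫ x, (Y x / a + (log a - 1)) ∂μ :=
        integral_mono hl ((hi.div_const _).add (integrable_const _)) h1
    _ = log a := by
        rw [integral_add (hi.div_const _) (integrable_const _), integral_div]
        simp only [integral_const, probReal_univ, smul_eq_mul, one_mul]
        rw [← ha, div_self hpos.ne']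
        ring

/-- Negative exponential moments of a function with a tangent field. -/
lemma neg_exp_moment {f : (ι → ℝ) → ℝ} {m : (ι → ℝ) → (ι → ℝ)} (hf : Measurable f)
    (hm : Measurable m) (htan : ∀ x y, f x + dot (y - x) (m x) ≤ f y) {b : ℝ} (hb : 0 < b)
    (hfi : Integrable f (gam ι)) (hmi : Integrable (fun x => dot (m x) (m x)) (gam ι))
    (hexp : Integrable (fun x => rexp (-b * f x)) (gam ι)) :
    log (∫ x, rexp (-b * f x) ∂(gam ι)) ≤
      -b * ∫ x, f x ∂(gam ι) + b ^ 2 * ∫ x, dot (m x) (m x) ∂(gam ι) := by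
  set A := ∫ x, rexp (-b * f x) ∂(gam ι) with hA
  have hApos : 0 < A := integral_exp_pos hexp
  set p : (ι → ℝ) → ℝ := fun x => b * f x - b ^ 2 * dot (m x) (m x) with hp
  have hpm : Measurable p := by
    refine (hf.const_mul b).sub (Measurable.const_mul ?_ _)
    unfold dot
    fun_prop
  have hpi : Integrable p (gam ι) := (hfi.const_mul b).sub (hmi.const_mul _)
  have hineq : ∀ x y, p x - b * f y ≤ ∑ i, (x i - y i) ^ 2 / 4 := by
    intro x y
    have h1 := htan x y
    have h2 : p x - b * f y ≤ b * dot (x - y) (m x) - b ^ 2 * dot (m x) (m x) := by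
      have h3 : dot (y - x) (m x) = - dot (x - y) (m x) := by
        rw [dot_sub_left, dot_sub_left]; ring
      rw [h3] at h1
      simp only [hp]
      nlinarith
    refine h2.trans ?_
    unfold dot
    rw [Finset.mul_sum, Finset.mul_sum, ← Finset.sum_sub_distrib]
    refine Finset.sum_le_sum fun i _ => ?_
    simp only [Pi.sub_apply]
    nlinarith [sq_nonneg ((x i - y i) / 2 - b * m x i)]
  have htau := tau (u := fun x => ENNReal.ofReal (rexp (p x)))
    (v := fun x => ENNReal.ofReal (rexp (-b * f x))) (by fun_prop) (by fun_prop) (fun x y => by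
      rw [← ENNReal.ofReal_mul (exp_pos _).le, ← Real.exp_add]
      refine ENNReal.ofReal_le_ofReal (exp_le_exp.2 ?_)
      have := hineq x y
      linarith)
  rw [← ofReal_integral_eq_lintegral_ofReal hexp
    (Filter.Eventually.of_forall fun x => (exp_pos _).le), ← hA] at htau
  have hA0 : ENNReal.ofReal A ≠ 0 := by
    rw [ne_eq, ENNReal.ofReal_eq_zero, not_le]; exact hApos
  have hfin : ∫⁻ x, ENNReal.ofReal (rexp (p x)) ∂(gam ι) ≠ ⊤ := by
    intro h
    rw [h, ENNReal.top_mul hA0] at htau
    exact absurd htau (by simp)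
  have hpexp : Integrable (fun x => rexp (p x)) (gam ι) := by
    refine ⟨(by fun_prop : Measurable fun x => rexp (p x)).aestronglyMeasurable, ?_⟩
    rw [hasFiniteIntegral_iff_ofReal (Filter.Eventually.of_forall fun x => (exp_pos _).le)]
    exact lt_top_iff_ne_top.2 hfin
  rw [← ofReal_integral_eq_lintegral_ofReal hpexp
    (Filter.Eventually.of_forall fun x => (exp_pos _).le), ← ENNReal.ofReal_mul
    (integral_nonneg fun x => (exp_pos _).le)] at htau
  have h5 : (∫ x, rexp (p x) ∂(gam ι)) * A ≤ 1 := by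
    rw [← ENNReal.ofReal_one, ENNReal.ofReal_le_ofReal_iff (by norm_num)] at htau
    exact htau
  have hjen : rexp (∫ x, p x ∂(gam ι)) ≤ ∫ x, rexp (p x) ∂(gam ι) :=
    convexOn_exp.map_integral_le continuous_exp.continuousOn isClosed_univ
      (Filter.Eventually.of_forall fun x => Set.mem_univ _) hpi hpexp
  have h6 : rexp (∫ x, p x ∂(gam ι)) * A ≤ 1 :=
    (mul_le_mul_of_nonneg_right hjen hApos.le).trans h5
  have h7 : (∫ x, p x ∂(gam ι)) + log A ≤ 0 := by
    have := Real.log_le_log (mul_pos (exp_pos _) hApos) h6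
    rwa [Real.log_mul (exp_pos _).ne' hApos.ne', Real.log_exp, Real.log_one] at this
  have h8 : ∫ x, p x ∂(gam ι) =
      b * ∫ x, f x ∂(gam ι) - b ^ 2 * ∫ x, dot (m x) (m x) ∂(gam ι) := by
    simp only [hp]
    rw [integral_sub (hfi.const_mul b) (hmi.const_mul _), integral_const_mul, integral_const_mul]
  linarith

end Pool.Agent.Lib_755967
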