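import Mathlib
import Pool.Agent.Lib_755967.Gauss
import Pool.Agent.Lib_755967.Stein
import Pool.Agent.Lib_755967.Lse
import Pool.Agent.Lib_755967.Interp
import Pool.Agent.Lib_755967.Tau
import Pool.Agent.Lib_755967.Neg
import Pool.Agent.Lib_755967.Corr

set_option autoImplicit false

open MeasureTheory ProbabilityTheory Real
open scoped ENNReal

namespace Pool.Agent.Lib_755967

variable {ι : Type*} [Fintype ι] {S : Type*} [Fintype S]

/-- gradient of the free energy -/
noncomputable def Mg (w : S → ℝ) (v : S → ι → ℝ) (i : ι) (x : ι → ℝ) : ℝ := ∑ σ, Gb w v x σ * v σ i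

variable [Nonempty S]

lemma continuous_Mg (w : S → ℝ) (v : S → ι → ℝ) (i : ι) : Continuous (Mg w v i) := by
  unfold Mg
  exact continuous_finsetSum _ fun σ _ => (continuous_Gb w v σ).mul continuous_const

lemma abs_Mg_le {w : S → ℝ} {v : S → ι → ℝ} {C : ℝ} (hv : ∀ σ i, |v σ i| ≤ C) (i : ι) (x : ι → ℝ) :
    |Mg w v i x| ≤ C := by
  unfold Mg
  refine (Finset.abs_sum_le_sum_abs _ _).trans ?_
  calc ∑ τ, |Gb w v x τ * v τ i| ≤ ∑ τ, Gb w v x τ * C := by
        refine Finset.sum_le_sum fun τ _ => ?_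
        rw [abs_mul, abs_of_nonneg (Gb_nonneg w v x τ)]
        exact mul_le_mul_of_nonneg_left (hv τ i) (Gb_nonneg w v x τ)
    _ = C := by rw [← Finset.sum_mul, sum_Gb, one_mul]

omit [Nonempty S] in
lemma sum_Gb_dot (w : S → ℝ) (v : S → ι → ℝ) (x z : ι → ℝ) :
    ∑ σ, Gb w v x σ * dot z (v σ) = dot z (fun i => Mg w v i x) := by
  unfold dot Mg
  simp_rw [Finset.mul_sum]
  rw [Finset.sum_comm]
  exact Finset.sum_congr rfl fun i _ => Finset.sum_congr rfl fun σ _ => by ring

lemma tangent' (w : S → ℝ) (v : S → ι → ℝ) (x y : ι → ℝ) :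
    L w v x + dot (y - x) (fun i => Mg w v i x) ≤ L w v y := by
  rw [← sum_Gb_dot]
  exact tangent w v x y

lemma integrable_L_affine (w : S → ℝ) (v : S → ι → ℝ) (z : ι → ℝ) (s : ℝ) :
    Integrable (fun y => L w v (z + s • y)) (gam ι) := by
  obtain ⟨A, hA⟩ := exists_bound w
  obtain ⟨C, hC⟩ := exists_bound2 v
  refine Integrable.mono' (g := fun y => (log (Fintype.card S) + A) +
    |C| * (∑ i, |z i| + |s| * ∑ i, |y i|)) ?_
    (((continuous_L w v).comp (by fun_prop : Continuous fun y : ι → ℝ => z + s • y)).aestronglyMeasurable)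
    (Filter.Eventually.of_forall fun y => ?_)
  · exact (integrable_const _).add (((integrable_const _).add (integrable_l1.const_mul _)).const_mul _)
  · rw [Real.norm_eq_abs]
    refine (abs_L_le hA hC _).trans ?_
    have h1 : ∑ i, |(z + s • y) i| ≤ ∑ i, |z i| + |s| * ∑ i, |y i| := by
      rw [Finset.mul_sum, ← Finset.sum_add_distrib]
      refine Finset.sum_le_sum fun i _ => ?_
      simp only [Pi.add_apply, Pi.smul_apply, smul_eq_mul]
      rw [← abs_mul]
      exact abs_add_le _ _
    have h0 : 0 ≤ ∑ i, |(z + s • y) i| := Finset.sum_nonneg fun i _ => abs_nonneg _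
    have h2 : C * ∑ i, |(z + s • y) i| ≤ |C| * (∑ i, |z i| + |s| * ∑ i, |y i|) :=
      (mul_le_mul_of_nonneg_right (le_abs_self C) h0).trans
        (mul_le_mul_of_nonneg_left h1 (abs_nonneg _))
    linarith

lemma integral_dot_zero (a : ι → ℝ) (s : ℝ) : ∫ y, dot (s • y) a ∂(gam ι) = 0 := by
  unfold dot
  rw [integral_finsetSum]
  · refine Finset.sum_eq_zero fun i _ => ?_
    have : ∀ y : ι → ℝ, (s • y) i * a i = (s * a i) * y i := by
      intro y; simp only [Pi.smul_apply, smul_eq_mul]; ring
    simp_rw [this]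
    rw [integral_const_mul]
    have h : ∫ y : ι → ℝ, y i ∂(gam ι) = 0 := by
      rw [integral_comp_eval (μ := fun _ : ι => gaussianReal 0 1) (f := fun t : ℝ => t) (by fun_prop)]
      simp
    rw [h, mul_zero]
  · intro i _
    have : ∀ y : ι → ℝ, (s • y) i * a i = (s * a i) * y i := by
      intro y; simp only [Pi.smul_apply, smul_eq_mul]; ring
    simp_rw [this]
    exact (integrable_coord i).const_mul _

lemma integrable_dot (a : ι → ℝ) (s : ℝ) : Integrable (fun y => dot (s • y) a) (gam ι) := by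
  unfold dot
  refine integrable_finsetSum _ fun i _ => ?_
  have : ∀ y : ι → ℝ, (s • y) i * a i = (s * a i) * y i := by
    intro y; simp only [Pi.smul_apply, smul_eq_mul]; ring
  simp_rw [this]
  exact (integrable_coord i).const_mul _

/-- lower bound for the smoothed free energy -/
lemma le_PP (w : S → ℝ) (v : S → ι → ℝ) (c s : ℝ) (x : ι → ℝ) :
    L w v (c • x) ≤ PP (L w v) c s x := by
  unfold PP
  have h1 : ∀ y, L w v (c • x) + dot (s • y) (fun i => Mg w v i (c • x)) ≤
      L w v (c • x + s • y) := by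
    intro y
    have := tangent' w v (c • x) (c • x + s • y)
    rwa [add_sub_cancel_left] at this
  have h2 : ∫ y, (L w v (c • x) + dot (s • y) (fun i => Mg w v i (c • x))) ∂(gam ι) ≤
      ∫ y, L w v (c • x + s • y) ∂(gam ι) :=
    integral_mono ((integrable_const _).add (integrable_dot _ _)) (integrable_L_affine w v _ _) h1
  rw [integral_add (integrable_const _) (integrable_dot _ _), integral_dot_zero] at h2
  simpa using h2

omit [Nonempty S] in
lemma L_shift (w : S → ℝ) (v : S → ι → ℝ) (x z : ι → ℝ) :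
    L w v (x + z) = L (w + fun σ => dot z (v σ)) v x := by
  unfold L Z
  congr 1
  refine Finset.sum_congr rfl fun σ _ => ?_
  congr 1
  simp only [Pi.add_apply]
  rw [dot_add_left]
  ring

/-- upper bound for the smoothed free energy -/
lemma PP_le (w : S → ℝ) (v : S → ι → ℝ) {K : ℝ} (hK : ∀ σ, dot (v σ) (v σ) ≤ K) (c s : ℝ)
    (x : ι → ℝ) : PP (L w v) c s x ≤ L w v (c • x) + s ^ 2 * K / 2 := by
  unfold PP
  set z := c • x with hz
  set Y : (ι → ℝ) → ℝ := fun y => ∑ σ, Gb w v z σ * rexp (dot (s • y) (v σ)) with hY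
  have hGpos : ∀ σ, 0 < Gb w v z σ := fun σ => div_pos (exp_pos _) (Z_pos w v z)
  have hYpos : ∀ y, 0 < Y y := fun y =>
    Finset.sum_pos (fun σ _ => mul_pos (hGpos σ) (exp_pos _)) Finset.univ_nonempty
  have hYe : ∀ y, Y y = ∑ σ, Gb w v z σ * rexp (dot y (s • v σ)) := by
    intro y
    simp only [hY]
    refine Finset.sum_congr rfl fun σ _ => ?_
    rw [dot_smul_left, dot_smul_right]
  have hYi : Integrable Y (gam ι) := by
    have : Y = fun y => ∑ σ, Gb w v z σ * rexp (dot y (s • v σ)) := funext hYe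
    rw [this]
    exact integrable_finsetSum _ fun σ _ => (integrable_exp_dot _).const_mul _
  have hLe : ∀ y, L w v (z + s • y) = L w v z + log (Y y) := by
    intro y
    rw [L_shift, L_add]
  have hLi : Integrable (fun y => log (Y y)) (gam ι) := by
    have h1 := (integrable_L_affine w v z s).sub (integrable_const (L w v z))
    refine h1.congr (Filter.Eventually.of_forall fun y => ?_)
    simp only [Pi.sub_apply, hLe]
    ring
  simp_rw [hLe]
  rw [integral_add (integrable_const _) hLi]
  simp only [integral_const, probReal_univ, smul_eq_mul, one_mul]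
  have hj := jensen_log hYpos hYi hLi
  have hint : ∫ y, Y y ∂(gam ι) ≤ rexp (s ^ 2 * K / 2) := by
    have : Y = fun y => ∑ σ, Gb w v z σ * rexp (dot y (s • v σ)) := funext hYe
    rw [this, integral_finsetSum _ fun σ _ => (integrable_exp_dot _).const_mul _]
    simp_rw [integral_const_mul, integral_exp_dot]
    calc ∑ σ, Gb w v z σ * rexp (dot (s • v σ) (s • v σ) / 2)
        ≤ ∑ σ, Gb w v z σ * rexp (s ^ 2 * K / 2) := by
          refine Finset.sum_le_sum fun σ _ => mul_le_mul_of_nonneg_left ?_ (hGpos σ).le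
          rw [exp_le_exp, dot_smul_left, dot_smul_right]
          have := hK σ
          have : s * (s * dot (v σ) (v σ)) ≤ s ^ 2 * K := by nlinarith [sq_nonneg s]
          linarith
      _ = _ := by rw [← Finset.sum_mul, sum_Gb, one_mul]
  have hYI : 0 < ∫ y, Y y ∂(gam ι) := by
    rw [integral_pos_iff_support_of_nonneg (fun x => (hYpos x).le) hYi]
    have : Function.support Y = Set.univ := by
      ext x; simp [(hYpos x).ne']
    rw [this]
    simp
  have h2 := Real.log_le_log hYI hint
  rw [Real.log_exp] at h2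
  linarith

lemma integrable_L_prod (w : S → ℝ) (v : S → ι → ℝ) {c s : ℝ} (h : c ^ 2 + s ^ 2 = 1) :
    Integrable (fun p : (ι → ℝ) × (ι → ℝ) => L w v (c • p.1 + s • p.2))
      ((gam ι).prod (gam ι)) :=
  ((rot1 (ι := ι) h).integrable_comp (continuous_L w v).aestronglyMeasurable).2 (integrable_L w v)

lemma integrable_PP_L (w : S → ℝ) (v : S → ι → ℝ) {c s : ℝ} (h : c ^ 2 + s ^ 2 = 1) :
    Integrable (PP (L w v) c s) (gam ι) := by
  unfold PP
  exact (integrable_L_prod w v h).integral_prod_left

lemma integral_PP_L (w : S → ℝ) (v : S → ι → ℝ) {c s : ℝ} (h : c ^ 2 + s ^ 2 = 1) :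
    ∫ x, PP (L w v) c s x ∂(gam ι) = ∫ x, L w v x ∂(gam ι) := by
  unfold PP
  rw [← integral_prod (f := fun p : (ι → ℝ) × (ι → ℝ) => L w v (c • p.1 + s • p.2))
    (integrable_L_prod w v h)]
  exact mp_integral (rot1 (ι := ι) h) (continuous_L w v).aestronglyMeasurable

/-- tangent field of the smoothed free energy -/
lemma tangent_PP (w : S → ℝ) (v : S → ι → ℝ) (c s : ℝ) (x y : ι → ℝ) :
    PP (L w v) c s x + dot (y - x) (fun i => c * PP (Mg w v i) c s x) ≤ PP (L w v) c s y := by
  obtain ⟨C, hC⟩ := exists_bound2 v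
  have hMi : ∀ i, Integrable (fun u => Mg w v i (c • x + s • u)) (gam ι) := fun i =>
    integrable_bdd (C := C) ((continuous_Mg w v i).comp (by fun_prop :
      Continuous fun u : ι → ℝ => c • x + s • u)).measurable (fun u => abs_Mg_le hC i _)
  have h1 : ∀ u, L w v (c • x + s • u) + ∑ i, (c * (y i - x i)) * Mg w v i (c • x + s • u) ≤
      L w v (c • y + s • u) := by
    intro u
    have := tangent' w v (c • x + s • u) (c • y + s • u)
    refine le_trans (le_of_eq ?_) this
    congr 1
    unfold dot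
    refine Finset.sum_congr rfl fun i _ => ?_
    simp only [Pi.sub_apply, Pi.add_apply, Pi.smul_apply, smul_eq_mul]
    ring
  have hsi : Integrable (fun u => ∑ i, (c * (y i - x i)) * Mg w v i (c • x + s • u)) (gam ι) :=
    integrable_finsetSum _ fun i _ => (hMi i).const_mul _
  have h2 := integral_mono ((integrable_L_affine w v (c • x) s).add hsi)
    (integrable_L_affine w v (c • y) s) h1
  simp only [Pi.add_apply] at h2
  rw [integral_add (integrable_L_affine w v (c • x) s) hsi,
    integral_finsetSum _ fun i _ => (hMi i).const_mul _] at h2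
  refine le_trans (le_of_eq ?_) h2
  unfold PP dot
  congr 1
  refine Finset.sum_congr rfl fun i _ => ?_
  rw [integral_const_mul]
  simp only [Pi.sub_apply]
  ring

/-- Negative exponential moments of the free energy. -/
lemma smooth_bound (w : S → ℝ) (v : S → ι → ℝ) {K : ℝ} (hK : ∀ σ, dot (v σ) (v σ) ≤ K) {c s b : ℝ}
    (h : c ^ 2 + s ^ 2 = 1) (hb : 0 < b) :
    log (∫ x, rexp (-b * L w v (c • x)) ∂(gam ι)) ≤
      b * (s ^ 2 * K / 2) - b * ∫ x, L w v x ∂(gam ι) +
        b ^ 2 * (c ^ 2 * ∑ i, ∫ x, PP (Mg w v i) c s x ^ 2 ∂(gam ι)) := by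
  obtain ⟨C, hC⟩ := exists_bound2 v
  obtain ⟨σ₀⟩ := ‹Nonempty S›
  have hlow : ∀ x, w σ₀ + dot (c • x) (v σ₀) ≤ L w v (c • x) := by
    intro x
    unfold L
    rw [Real.le_log_iff_exp_le (Z_pos w v _)]
    exact exp_le_Z w v _ σ₀
  have hdom : Integrable (fun x : ι → ℝ => rexp (-b * w σ₀) * rexp (dot x ((-b * c) • v σ₀)))
      (gam ι) := (integrable_exp_dot _).const_mul _
  have hdom' : ∀ x : ι → ℝ, rexp (-b * w σ₀) * rexp (dot x ((-b * c) • v σ₀)) =
      rexp (-b * (w σ₀ + dot (c • x) (v σ₀))) := by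
    intro x
    rw [← Real.exp_add, dot_smul_right, dot_smul_left]
    congr 1
    ring
  have hfm : Measurable (PP (L w v) c s) := measurable_PP (continuous_L w v).measurable c s
  have hexpf : Integrable (fun x => rexp (-b * PP (L w v) c s x)) (gam ι) := by
    refine hdom.mono' (hfm.const_mul (-b)).exp.aestronglyMeasurable
      (Filter.Eventually.of_forall fun x => ?_)
    rw [Real.norm_eq_abs, abs_of_pos (exp_pos _), hdom', exp_le_exp]
    have h1 := hlow x
    have h2 := le_PP w v c s x
    nlinarith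
  have hexpL : Integrable (fun x => rexp (-b * L w v (c • x))) (gam ι) := by
    refine hdom.mono' ?_ (Filter.Eventually.of_forall fun x => ?_)
    · have : Continuous (fun x : ι → ℝ => rexp (-b * L w v (c • x))) := by
        have := continuous_L w v
        fun_prop
      exact this.aestronglyMeasurable
    · rw [Real.norm_eq_abs, abs_of_pos (exp_pos _), hdom', exp_le_exp]
      have h1 := hlow x
      nlinarith
  have hmm : Measurable (fun x => (fun i => c * PP (Mg w v i) c s x : ι → ℝ)) := by
    refine measurable_pi_iff.2 fun i => ?_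
    exact (measurable_PP (continuous_Mg w v i).measurable c s).const_mul c
  have hPi : ∀ i, Integrable (fun x => PP (Mg w v i) c s x ^ 2) (gam ι) := fun i =>
    integrable_bdd (C := C ^ 2) ((measurable_PP (continuous_Mg w v i).measurable c s).pow_const 2)
      (fun p => by
        rw [abs_pow]
        exact pow_le_pow_left₀ (abs_nonneg _) (abs_PP_le (fun x => abs_Mg_le hC i x) _ _ _) 2)
  have hdot : ∀ x, dot (fun i => c * PP (Mg w v i) c s x) (fun i => c * PP (Mg w v i) c s x) =
      ∑ i, c ^ 2 * PP (Mg w v i) c s x ^ 2 := by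
    intro x
    unfold dot
    exact Finset.sum_congr rfl fun i _ => by ring
  have hmi : Integrable (fun x => dot (fun i => c * PP (Mg w v i) c s x)
      (fun i => c * PP (Mg w v i) c s x)) (gam ι) := by
    simp_rw [hdot]
    exact integrable_finsetSum _ fun i _ => (hPi i).const_mul _
  have key := neg_exp_moment hfm hmm (tangent_PP w v c s) hb (integrable_PP_L w v h) hmi hexpf
  rw [integral_PP_L w v h] at key
  have hdint : ∫ x, dot (fun i => c * PP (Mg w v i) c s x)
      (fun i => c * PP (Mg w v i) c s x) ∂(gam ι) =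
      c ^ 2 * ∑ i, ∫ x, PP (Mg w v i) c s x ^ 2 ∂(gam ι) := by
    simp_rw [hdot]
    rw [integral_finsetSum _ fun i _ => (hPi i).const_mul _, Finset.mul_sum]
    exact Finset.sum_congr rfl fun i _ => integral_const_mul _ _
  rw [hdint] at key
  -- compare
  have hcmp : ∫ x, rexp (-b * L w v (c • x)) ∂(gam ι) ≤
      rexp (b * (s ^ 2 * K / 2)) * ∫ x, rexp (-b * PP (L w v) c s x) ∂(gam ι) := by
    rw [← integral_const_mul]
    refine integral_mono hexpL (hexpf.const_mul _) fun x => ?_
    simp only
    rw [← Real.exp_add, exp_le_exp]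
    have := PP_le w v hK c s x
    nlinarith
  have hpos1 : 0 < ∫ x, rexp (-b * L w v (c • x)) ∂(gam ι) := integral_exp_pos hexpL
  have hpos2 : 0 < ∫ x, rexp (-b * PP (L w v) c s x) ∂(gam ι) := integral_exp_pos hexpf
  have h3 := Real.log_le_log hpos1 hcmp
  rw [Real.log_mul (exp_pos _).ne' hpos2.ne', Real.log_exp] at h3
  linarith

end Pool.Agent.Lib_755967
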