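import Mathlib
import Pool.Agent.Lib_755967.Gauss
import Pool.Agent.Lib_755967.Stein
import Pool.Agent.Lib_755967.Lse
import Pool.Agent.Lib_755967.Interp
import Pool.Agent.Lib_755967.Tau
import Pool.Agent.Lib_755967.Neg
import Pool.Agent.Lib_755967.Corr
import Pool.Agent.Lib_755967.Smooth

set_option autoImplicit false

open MeasureTheory ProbabilityTheory Real
open scoped ENNReal

namespace Pool.Agent.Lib_755967

variable {ι : Type*} [Fintype ι] {κ : Type*} [Fintype κ] {S : Type*} [Fintype S] [Nonempty S]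

lemma gam_sum : MeasurePreserving
    (fun p : (ι → ℝ) × (κ → ℝ) => (Sum.elim p.1 p.2 : ι ⊕ κ → ℝ))
    ((gam ι).prod (gam κ)) (gam (ι ⊕ κ)) := by
  have h := measurePreserving_sumPiEquivProdPi_symm (X := fun _ : ι ⊕ κ => ℝ)
    (fun _ : ι ⊕ κ => gaussianReal 0 1)
  have e : (fun p : (ι → ℝ) × (κ → ℝ) => (Sum.elim p.1 p.2 : ι ⊕ κ → ℝ)) =
      ⇑(MeasurableEquiv.sumPiEquivProdPi (fun _ : ι ⊕ κ => ℝ)).symm := by
    funext p
    funext i
    cases i <;> rfl
  rw [e]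
  exact h

lemma dot_elim (x a : ι → ℝ) (y b : κ → ℝ) :
    dot (Sum.elim x y : ι ⊕ κ → ℝ) (Sum.elim a b) = dot x a + dot y b := by
  unfold dot
  rw [Fintype.sum_sum_type]
  rfl

/-- vectors of the coupled system -/
noncomputable def VV (v : S → ι → ℝ) (θ : ℝ) (p : S × S) : ι ⊕ ι → ℝ :=
  Sum.elim (v p.1 + Real.cos θ • v p.2) (Real.sin θ • v p.2)

noncomputable def VV' (v : S → ι → ℝ) (θ : ℝ) (p : S × S) : ι ⊕ ι → ℝ :=
  Sum.elim (-Real.sin θ • v p.2) (Real.cos θ • v p.2)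

/-- weights of the coupled system -/
noncomputable def WW (q : S → S → ℝ) (l k : ℝ) (θ : ℝ) (p : S × S) : ℝ :=
  (l - k * Real.cos θ) * q p.1 p.2

noncomputable def WW' (q : S → S → ℝ) (k : ℝ) (θ : ℝ) (p : S × S) : ℝ :=
  (k * Real.sin θ) * q p.1 p.2

omit [Fintype ι] [Nonempty S] in
lemma finset_bound {α β : Type*} [Fintype α] [Fintype β] (f : α → β → ℝ) :
    ∃ C : ℝ, 0 ≤ C ∧ ∀ a b, |f a b| ≤ C := by
  refine ⟨∑ a, ∑ b, |f a b|, by positivity, fun a b => ?_⟩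
  refine le_trans ?_ (Finset.single_le_sum (f := fun a => ∑ b, |f a b|)
    (fun a _ => Finset.sum_nonneg fun _ _ => abs_nonneg _) (Finset.mem_univ a))
  exact Finset.single_le_sum (f := fun b => |f a b|) (fun b _ => abs_nonneg _) (Finset.mem_univ b)

lemma couple_mono (v : S → ι → ℝ) (q : S → S → ℝ) {k : ℝ} (hk : 0 ≤ k) (hq : ∀ σ τ, 0 ≤ q σ τ)
    (hv : ∀ σ τ, dot (v σ) (v τ) = k * (q σ τ - 1)) (l : ℝ) {θ : ℝ} (h0 : 0 ≤ θ)
    (h1 : θ ≤ π / 2) :
    ∫ x, L (WW q l k θ) (VV v θ) x ∂(gam (ι ⊕ ι)) ≤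
      ∫ x, L (WW q l k (π / 2)) (VV v (π / 2)) x ∂(gam (ι ⊕ ι)) := by
  obtain ⟨C₁, hC₁0, hC₁⟩ := finset_bound q
  obtain ⟨C₂, hC₂0, hC₂⟩ := finset_bound v
  have hW : ∀ θ p, HasDerivAt (fun θ => WW q l k θ p) (WW' q k θ p) θ := by
    intro θ p
    unfold WW WW'
    refine ((((Real.hasDerivAt_cos θ).const_mul k).const_sub l).mul_const (q p.1 p.2)).congr_deriv ?_
    ring
  have hV : ∀ θ p i, HasDerivAt (fun θ => VV v θ p i) (VV' v θ p i) θ := by
    intro θ p i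
    cases i with
    | inl i =>
      simp only [VV, VV', Sum.elim_inl, Pi.add_apply, Pi.smul_apply, smul_eq_mul]
      exact (((Real.hasDerivAt_cos θ).mul_const (v p.2 i)).const_add (v p.1 i)).congr_deriv (by ring)
    | inr i =>
      simp only [VV, VV', Sum.elim_inr, Pi.smul_apply, smul_eq_mul]
      exact ((Real.hasDerivAt_sin θ).mul_const (v p.2 i)).congr_deriv (by ring)
  have hWb : ∀ θ p, |WW' q k θ p| ≤ k * C₁ + C₂ := by
    intro θ p
    unfold WW'
    rw [abs_mul, abs_mul, abs_of_nonneg hk]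
    have h2 := Real.abs_sin_le_one θ
    have h3 := hC₁ p.1 p.2
    have h4 : k * |Real.sin θ| ≤ k * 1 := mul_le_mul_of_nonneg_left h2 hk
    calc k * |Real.sin θ| * |q p.1 p.2| ≤ k * 1 * C₁ :=
          mul_le_mul h4 h3 (abs_nonneg _) (by positivity)
      _ ≤ k * C₁ + C₂ := by linarith
  have hVb : ∀ θ p i, |VV' v θ p i| ≤ k * C₁ + C₂ := by
    intro θ p i
    have hkc : 0 ≤ k * C₁ := mul_nonneg hk hC₁0
    cases i with
    | inl i =>
      simp only [VV', Sum.elim_inl, Pi.smul_apply, smul_eq_mul]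
      rw [abs_mul, abs_neg]
      have h2 := Real.abs_sin_le_one θ
      calc |Real.sin θ| * |v p.2 i| ≤ 1 * C₂ := mul_le_mul h2 (hC₂ _ _) (abs_nonneg _) (by norm_num)
        _ ≤ k * C₁ + C₂ := by linarith
    | inr i =>
      simp only [VV', Sum.elim_inr, Pi.smul_apply, smul_eq_mul]
      rw [abs_mul]
      have h2 := Real.abs_cos_le_one θ
      calc |Real.cos θ| * |v p.2 i| ≤ 1 * C₂ := mul_le_mul h2 (hC₂ _ _) (abs_nonneg _) (by norm_num)
        _ ≤ k * C₁ + C₂ := by linarith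
  have hI := interp hW hV hWb hVb
  have hqs : ∀ σ τ, k * q σ τ = k * q τ σ := by
    intro σ τ
    have e1 := hv σ τ
    have e2 := hv τ σ
    rw [dot_comm] at e1
    linarith
  have hdot : ∀ θ (a b : S × S), dot (VV' v θ a) (VV v θ b) =
      -Real.sin θ * (k * (q a.2 b.1 - 1)) := by
    intro θ a b
    unfold VV VV'
    rw [dot_elim, dot_smul_left, dot_smul_left, dot_smul_right, dot_add_right, dot_smul_right,
      hv, hv]
    ring
  have hval : ∀ θ x, (∑ a, Gb (WW q l k θ) (VV v θ) x a * (WW' q k θ a + dot (VV' v θ a) (VV v θ a))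
        - ∑ a, ∑ b, Gb (WW q l k θ) (VV v θ) x a * Gb (WW q l k θ) (VV v θ) x b *
          dot (VV' v θ a) (VV v θ b)) =
      Real.sin θ * k * ∑ a, ∑ b, Gb (WW q l k θ) (VV v θ) x a *
        Gb (WW q l k θ) (VV v θ) x b * q a.2 b.1 := by
    intro θ x
    set g := Gb (WW q l k θ) (VV v θ) x with hg
    have hs : ∑ a, g a = 1 := sum_Gb _ _ _
    have e1 : ∑ a, g a * (WW' q k θ a + dot (VV' v θ a) (VV v θ a)) = k * Real.sin θ := by
      have : ∀ a, g a * (WW' q k θ a + dot (VV' v θ a) (VV v θ a)) = g a * (k * Real.sin θ) := by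
        intro a
        rw [hdot]
        unfold WW'
        have := hqs a.1 a.2
        congr 1
        have h5 : k * Real.sin θ * q a.1 a.2 = Real.sin θ * (k * q a.2 a.1) := by
          rw [← this]; ring
        rw [h5]
        ring
      simp_rw [this]
      rw [← Finset.sum_mul, hs, one_mul]
    have e2 : ∑ a, ∑ b, g a * g b * dot (VV' v θ a) (VV v θ b) =
        k * Real.sin θ - Real.sin θ * k * ∑ a, ∑ b, g a * g b * q a.2 b.1 := by
      have : ∀ a b, g a * g b * dot (VV' v θ a) (VV v θ b) =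
          (k * Real.sin θ) * (g a * g b) - Real.sin θ * k * (g a * g b * q a.2 b.1) := by
        intro a b
        rw [hdot]
        ring
      simp_rw [this]
      simp_rw [Finset.sum_sub_distrib, ← Finset.mul_sum, hs]
      simp only [mul_one, hs]
    rw [e1, e2]
    ring
  have hmono : MonotoneOn (fun θ => ∫ x, L (WW q l k θ) (VV v θ) x ∂(gam (ι ⊕ ι)))
      (Set.Icc 0 (π / 2)) := by
    refine monotoneOn_of_deriv_nonneg (convex_Icc _ _)
      (fun θ _ => (hI θ).continuousAt.continuousWithinAt)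
      (fun θ _ => (hI θ).differentiableAt.differentiableWithinAt) ?_
    intro θ hθ
    rw [interior_Icc] at hθ
    rw [(hI θ).deriv]
    refine integral_nonneg fun x => ?_
    simp only [Pi.zero_apply]
    rw [hval]
    have hsin : 0 ≤ Real.sin θ :=
      Real.sin_nonneg_of_nonneg_of_le_pi hθ.1.le (by linarith [hθ.2, Real.pi_pos])
    refine mul_nonneg (mul_nonneg hsin hk) ?_
    exact Finset.sum_nonneg fun a _ => Finset.sum_nonneg fun b _ =>
      mul_nonneg (mul_nonneg (Gb_nonneg _ _ _ _) (Gb_nonneg _ _ _ _)) (hq _ _)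
  exact hmono ⟨h0, h1⟩ ⟨by positivity, le_rfl⟩ h1

omit [Fintype S] [Nonempty S] in
lemma dot_VV (v : S → ι → ℝ) (θ : ℝ) (x y : ι → ℝ) (p : S × S) :
    dot (Sum.elim x y : ι ⊕ ι → ℝ) (VV v θ p) =
      dot x (v p.1) + dot (Real.cos θ • x + Real.sin θ • y) (v p.2) := by
  unfold VV
  rw [dot_elim, dot_add_right, dot_smul_right, dot_smul_right, dot_add_left, dot_smul_left,
    dot_smul_left]
  ring

omit [Nonempty S] in
lemma Z_VV (v : S → ι → ℝ) (θ : ℝ) (x y : ι → ℝ) :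
    Z (0 : S × S → ℝ) (VV v θ) (Sum.elim x y) =
      Z (0 : S → ℝ) v x * Z (0 : S → ℝ) v (Real.cos θ • x + Real.sin θ • y) := by
  unfold Z
  rw [Fintype.sum_prod_type, Finset.sum_mul_sum]
  refine Finset.sum_congr rfl fun σ _ => Finset.sum_congr rfl fun τ _ => ?_
  rw [dot_VV, ← Real.exp_add]
  simp only [Pi.zero_apply, zero_add]

omit [Nonempty S] in
lemma Gb_VV (v : S → ι → ℝ) (θ : ℝ) (x y : ι → ℝ) (p : S × S) :
    Gb (0 : S × S → ℝ) (VV v θ) (Sum.elim x y) p =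
      Gb (0 : S → ℝ) v x p.1 * Gb (0 : S → ℝ) v (Real.cos θ • x + Real.sin θ • y) p.2 := by
  unfold Gb
  rw [Z_VV, dot_VV, div_mul_div_comm, ← Real.exp_add]
  simp only [Pi.zero_apply, zero_add]

lemma L_VV (v : S → ι → ℝ) (θ : ℝ) (x y : ι → ℝ) :
    L (0 : S × S → ℝ) (VV v θ) (Sum.elim x y) =
      L (0 : S → ℝ) v x + L (0 : S → ℝ) v (Real.cos θ • x + Real.sin θ • y) := by
  unfold L
  rw [Z_VV, Real.log_mul (Z_pos _ _ _).ne' (Z_pos _ _ _).ne']

/-- the coupled average of `q` -/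
noncomputable def Eq (v : S → ι → ℝ) (q : S → S → ℝ) (ρ s : ℝ) : ℝ :=
  ∫ p, (∑ σ, ∑ τ, Gb (0 : S → ℝ) v p.1 σ * Gb (0 : S → ℝ) v (ρ • p.1 + s • p.2) τ * q σ τ)
    ∂((gam ι).prod (gam ι))

lemma integrable_GG (v : S → ι → ℝ) (ρ s : ℝ) (σ τ : S) :
    Integrable (fun p : (ι → ℝ) × (ι → ℝ) => Gb (0 : S → ℝ) v p.1 σ *
      Gb (0 : S → ℝ) v (ρ • p.1 + s • p.2) τ) ((gam ι).prod (gam ι)) := by
  refine integrable_bdd (C := 1) ?_ ?_
  · refine Measurable.mul ?_ ?_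
    · exact (continuous_Gb _ v σ).measurable.comp measurable_fst
    · exact (continuous_Gb _ v τ).measurable.comp (by fun_prop)
  · intro p
    rw [abs_mul, abs_of_nonneg (Gb_nonneg _ _ _ _), abs_of_nonneg (Gb_nonneg _ _ _ _)]
    exact mul_le_one₀ (Gb_le_one _ _ _ _) (Gb_nonneg _ _ _ _) (Gb_le_one _ _ _ _)

lemma integrable_GGq (v : S → ι → ℝ) (q : S → S → ℝ) (ρ s : ℝ) :
    Integrable (fun p : (ι → ℝ) × (ι → ℝ) => ∑ σ, ∑ τ, Gb (0 : S → ℝ) v p.1 σ *
      Gb (0 : S → ℝ) v (ρ • p.1 + s • p.2) τ * q σ τ) ((gam ι).prod (gam ι)) :=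
  integrable_finsetSum _ fun σ _ => integrable_finsetSum _ fun τ _ =>
    (integrable_GG v ρ s σ τ).mul_const _

lemma couple_main (v : S → ι → ℝ) (q : S → S → ℝ) {k : ℝ} (hk : 0 ≤ k) (hq : ∀ σ τ, 0 ≤ q σ τ)
    (hv : ∀ σ τ, dot (v σ) (v τ) = k * (q σ τ - 1)) (l : ℝ)
    (hG : ∀ σ, ∫ x, Gb (0 : S → ℝ) v x σ ∂(gam ι) = 1 / Fintype.card S)
    {θ : ℝ} (h0 : 0 ≤ θ) (h1 : θ ≤ π / 2) :
    (l - k * Real.cos θ) * Eq v q (Real.cos θ) (Real.sin θ) ≤
      log ((∑ σ, ∑ τ, rexp (l * q σ τ)) / (Fintype.card S : ℝ) ^ 2) := by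
  have hmono := couple_mono v q hk hq hv l h0 h1
  -- transform to the product
  have htr : ∀ θ, ∫ x, L (WW q l k θ) (VV v θ) x ∂(gam (ι ⊕ ι)) =
      ∫ p : (ι → ℝ) × (ι → ℝ), L (WW q l k θ) (VV v θ) (Sum.elim p.1 p.2)
        ∂((gam ι).prod (gam ι)) := fun θ =>
    (mp_integral gam_sum (continuous_L _ _).aestronglyMeasurable).symm
  have hintL : ∀ θ, Integrable (fun p : (ι → ℝ) × (ι → ℝ) =>
      L (WW q l k θ) (VV v θ) (Sum.elim p.1 p.2)) ((gam ι).prod (gam ι)) := fun θ =>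
    (gam_sum.integrable_comp (continuous_L _ _).aestronglyMeasurable).2 (integrable_L _ _)
  rw [htr, htr] at hmono
  have hdec : ∀ θ (p : (ι → ℝ) × (ι → ℝ)), L (WW q l k θ) (VV v θ) (Sum.elim p.1 p.2) =
      L (0 : S → ℝ) v p.1 + L (0 : S → ℝ) v (Real.cos θ • p.1 + Real.sin θ • p.2) +
        log (∑ a : S × S, Gb (0 : S → ℝ) v p.1 a.1 *
          Gb (0 : S → ℝ) v (Real.cos θ • p.1 + Real.sin θ • p.2) a.2 *
          rexp (WW q l k θ a)) := by
    intro θ p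
    have h2 := L_add (0 : S × S → ℝ) (WW q l k θ) (VV v θ) (Sum.elim p.1 p.2)
    rw [zero_add] at h2
    rw [h2, L_VV]
    congr 2
    refine Finset.sum_congr rfl fun a _ => ?_
    rw [Gb_VV]
  have hcs : ∀ θ : ℝ, Real.cos θ ^ 2 + Real.sin θ ^ 2 = 1 := Real.cos_sq_add_sin_sq
  have i1 : Integrable (fun p : (ι → ℝ) × (ι → ℝ) => L (0 : S → ℝ) v p.1)
      ((gam ι).prod (gam ι)) :=
    (measurePreserving_fst.integrable_comp (continuous_L _ _).aestronglyMeasurable).2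
      (integrable_L _ _)
  have i2 : ∀ θ : ℝ, Integrable (fun p : (ι → ℝ) × (ι → ℝ) =>
      L (0 : S → ℝ) v (Real.cos θ • p.1 + Real.sin θ • p.2)) ((gam ι).prod (gam ι)) := fun θ =>
    integrable_L_prod 0 v (hcs θ)
  have e1 : ∫ p : (ι → ℝ) × (ι → ℝ), L (0 : S → ℝ) v p.1 ∂((gam ι).prod (gam ι)) =
      ∫ x, L (0 : S → ℝ) v x ∂(gam ι) :=
    mp_integral measurePreserving_fst (continuous_L _ _).aestronglyMeasurable
  have e2 : ∀ θ : ℝ, ∫ p : (ι → ℝ) × (ι → ℝ),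
      L (0 : S → ℝ) v (Real.cos θ • p.1 + Real.sin θ • p.2) ∂((gam ι).prod (gam ι)) =
      ∫ x, L (0 : S → ℝ) v x ∂(gam ι) := fun θ =>
    mp_integral (rot1 (hcs θ)) (continuous_L _ _).aestronglyMeasurable
  -- the log term
  set R : ℝ → (ι → ℝ) × (ι → ℝ) → ℝ := fun θ p => ∑ a : S × S, Gb (0 : S → ℝ) v p.1 a.1 *
          Gb (0 : S → ℝ) v (Real.cos θ • p.1 + Real.sin θ • p.2) a.2 *
          rexp (WW q l k θ a) with hR
  have i3 : ∀ θ, Integrable (fun p => log (R θ p)) ((gam ι).prod (gam ι)) := by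
    intro θ
    refine (((hintL θ).sub i1).sub (i2 θ)).congr (Filter.Eventually.of_forall fun p => ?_)
    simp only [Pi.sub_apply, hdec]
    ring
  have e3 : ∀ θ, ∫ p : (ι → ℝ) × (ι → ℝ), L (WW q l k θ) (VV v θ) (Sum.elim p.1 p.2)
        ∂((gam ι).prod (gam ι)) = 2 * ∫ x, L (0 : S → ℝ) v x ∂(gam ι) +
        ∫ p, log (R θ p) ∂((gam ι).prod (gam ι)) := by
    intro θ
    simp_rw [hdec]
    have i12 : Integrable (fun p : (ι → ℝ) × (ι → ℝ) => L (0 : S → ℝ) v p.1 +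
      L (0 : S → ℝ) v (Real.cos θ • p.1 + Real.sin θ • p.2)) ((gam ι).prod (gam ι)) :=
      i1.add (i2 θ)
    rw [integral_add i12 (i3 θ), integral_add i1 (i2 θ), e1, e2]
    ring
  rw [e3, e3] at hmono
  have hmono' : ∫ p, log (R θ p) ∂((gam ι).prod (gam ι)) ≤
      ∫ p, log (R (π / 2) p) ∂((gam ι).prod (gam ι)) := by linarith
  -- lower bound
  have hlow : (l - k * Real.cos θ) * Eq v q (Real.cos θ) (Real.sin θ) ≤
      ∫ p, log (R θ p) ∂((gam ι).prod (gam ι)) := by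
    unfold Eq
    rw [← integral_const_mul]
    refine integral_mono ((integrable_GGq v q _ _).const_mul _) (i3 θ) fun p => ?_
    simp only
    have hj := jensen_Gb (0 : S × S → ℝ) (VV v θ) (Sum.elim p.1 p.2) (WW q l k θ)
    have e5 : ∑ a, Gb (0 : S × S → ℝ) (VV v θ) (Sum.elim p.1 p.2) a * WW q l k θ a =
        (l - k * Real.cos θ) * ∑ σ, ∑ τ, Gb (0 : S → ℝ) v p.1 σ *
          Gb (0 : S → ℝ) v (Real.cos θ • p.1 + Real.sin θ • p.2) τ * q σ τ := by
      rw [Fintype.sum_prod_type, Finset.mul_sum]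
      refine Finset.sum_congr rfl fun σ _ => ?_
      rw [Finset.mul_sum]
      refine Finset.sum_congr rfl fun τ _ => ?_
      rw [Gb_VV]
      unfold WW
      ring
    have e6 : ∑ a, Gb (0 : S × S → ℝ) (VV v θ) (Sum.elim p.1 p.2) a * rexp (WW q l k θ a) =
        R θ p := by
      simp only [hR]
      refine Finset.sum_congr rfl fun a _ => ?_
      rw [Gb_VV]
    rw [e5, e6] at hj
    exact hj
  -- upper bound
  have hRpos : ∀ p, 0 < R (π / 2) p := fun p =>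
    Finset.sum_pos (fun a _ => mul_pos (mul_pos (div_pos (exp_pos _) (Z_pos _ _ _))
      (div_pos (exp_pos _) (Z_pos _ _ _))) (exp_pos _)) Finset.univ_nonempty
  have hRi : Integrable (R (π / 2)) ((gam ι).prod (gam ι)) :=
    integrable_finsetSum _ fun a _ => (integrable_GG v _ _ a.1 a.2).mul_const _
  have hup := jensen_log hRpos hRi (i3 (π / 2))
  have hRint : ∫ p, R (π / 2) p ∂((gam ι).prod (gam ι)) =
      (∑ σ, ∑ τ, rexp (l * q σ τ)) / (Fintype.card S : ℝ) ^ 2 := by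
    simp only [hR]
    rw [integral_finsetSum _ fun a _ => (integrable_GG v _ _ a.1 a.2).mul_const _,
      Fintype.sum_prod_type, Finset.sum_div]
    refine Finset.sum_congr rfl fun σ _ => ?_
    rw [Finset.sum_div]
    refine Finset.sum_congr rfl fun τ _ => ?_
    rw [integral_mul_const]
    have e7 : ∫ p : (ι → ℝ) × (ι → ℝ), Gb (0 : S → ℝ) v p.1 σ *
        Gb (0 : S → ℝ) v (Real.cos (π / 2) • p.1 + Real.sin (π / 2) • p.2) τ
        ∂((gam ι).prod (gam ι)) = (1 / (Fintype.card S : ℝ)) * (1 / (Fintype.card S : ℝ)) := by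
      rw [← hG σ]
      nth_rewrite 2 [hG σ]
      rw [← hG τ, ← integral_prod_mul]
      simp only [Real.cos_pi_div_two, Real.sin_pi_div_two, zero_smul, one_smul, zero_add]
    rw [e7]
    unfold WW
    simp only [Real.cos_pi_div_two, mul_zero, sub_zero]
    field_simp
  rw [hRint] at hup
  linarith

lemma sum_E2_eq (v : S → ι → ℝ) (q : S → S → ℝ) {k : ℝ}
    (hv : ∀ σ τ, dot (v σ) (v τ) = k * (q σ τ - 1)) (ρ s : ℝ) :
    ∑ i, E2 (Mg (0 : S → ℝ) v i) ρ s = k * (Eq v q ρ s - 1) := by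
  obtain ⟨C, hC⟩ := exists_bound2 v
  unfold E2
  rw [← integral_finsetSum]
  · have e : ∀ p : (ι → ℝ) × (ι → ℝ), ∑ i, Mg (0 : S → ℝ) v i p.1 *
        Mg (0 : S → ℝ) v i (ρ • p.1 + s • p.2) =
        k * ((∑ σ, ∑ τ, Gb (0 : S → ℝ) v p.1 σ * Gb (0 : S → ℝ) v (ρ • p.1 + s • p.2) τ * q σ τ)
          - 1) := by
      intro p
      set g := Gb (0 : S → ℝ) v p.1 with hg
      set g' := Gb (0 : S → ℝ) v (ρ • p.1 + s • p.2) with hg'
      have h1 : ∑ σ, g σ = 1 := sum_Gb _ _ _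
      have h2 : ∑ σ, g' σ = 1 := sum_Gb _ _ _
      have e1 : ∑ i, Mg (0 : S → ℝ) v i p.1 * Mg (0 : S → ℝ) v i (ρ • p.1 + s • p.2) =
          ∑ σ, ∑ τ, g σ * g' τ * dot (v σ) (v τ) := by
        unfold Mg dot
        simp_rw [Finset.sum_mul_sum, Finset.mul_sum]
        rw [Finset.sum_comm]
        refine Finset.sum_congr rfl fun σ _ => ?_
        rw [Finset.sum_comm]
        exact Finset.sum_congr rfl fun τ _ => Finset.sum_congr rfl fun i _ => by ring
      rw [e1]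
      have e2 : ∀ σ τ, g σ * g' τ * dot (v σ) (v τ) = k * (g σ * g' τ * q σ τ) - k * (g σ * g' τ) := by
        intro σ τ
        rw [hv]; ring
      simp_rw [e2, Finset.sum_sub_distrib, ← Finset.mul_sum, h2, mul_one, h1]
      ring
    simp_rw [e]
    rw [integral_const_mul, integral_sub (integrable_GGq v q ρ s) (integrable_const _)]
    simp only [integral_const, probReal_univ, smul_eq_mul, one_mul]
    rfl
  · intro i _
    have hC0 : 0 ≤ |C| := abs_nonneg _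
    have hb : ∀ x, |Mg (0 : S → ℝ) v i x| ≤ |C| := fun x =>
      (abs_Mg_le hC i x).trans (le_abs_self C)
    refine integrable_bdd (C := |C| * |C|) ?_ ?_
    · exact ((continuous_Mg _ v i).measurable.comp measurable_fst).mul
        ((continuous_Mg _ v i).measurable.comp (by fun_prop))
    · intro p
      rw [abs_mul]
      exact mul_le_mul (hb _) (hb _) (abs_nonneg _) hC0

end Pool.Agent.Lib_755967
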