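import Mathlib
import Pool.Agent.Lib_755967.Gauss
import Pool.Agent.Lib_755967.Stein
import Pool.Agent.Lib_755967.Lse
import Pool.Agent.Lib_755967.Interp
import Pool.Agent.Lib_755967.Tau
import Pool.Agent.Lib_755967.Neg
import Pool.Agent.Lib_755967.Corr
import Pool.Agent.Lib_755967.Smooth
import Pool.Agent.Lib_755967.Couple

set_option autoImplicit false

open MeasureTheory ProbabilityTheory Real
open scoped ENNReal

namespace Pool.Agent.Lib_755967

/-- the sign of a spin -/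
noncomputable def sp (a : Fin 2) : ℝ := (-1 : ℝ) ^ a.val

lemma sp_sq (a : Fin 2) : sp a * sp a = 1 := by
  unfold sp; fin_cases a <;> simp

lemma sp_add (a b : Fin 2) : sp (a + b) = sp a * sp b := by
  unfold sp; fin_cases a <;> fin_cases b <;> simp

lemma abs_sp (a : Fin 2) : |sp a| = 1 := by
  unfold sp; fin_cases a <;> simp

/-- the vectors of the SK Hamiltonian -/
noncomputable def vSK (N : ℕ) (β : ℝ) (σ : Fin N → Fin 2) (p : Fin N × Fin N) : ℝ :=
  if p.1 < p.2 then β / √N * (sp (σ p.1) * sp (σ p.2)) else 0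

/-- `N` times the squared overlap -/
noncomputable def qSK (N : ℕ) (σ τ : Fin N → Fin 2) : ℝ := (∑ i, sp (σ i) * sp (τ i)) ^ 2 / N

lemma sum_offdiag (N : ℕ) (a : Fin N → ℝ) :
    ∑ p : Fin N × Fin N, (if p.1 < p.2 then a p.1 * a p.2 else 0) =
      ((∑ i, a i) ^ 2 - ∑ i, a i ^ 2) / 2 := by
  have h1 : (∑ i, a i) ^ 2 = ∑ p : Fin N × Fin N, a p.1 * a p.2 := by
    rw [pow_two, Finset.sum_mul_sum, Fintype.sum_prod_type]
  have h2 : ∑ p : Fin N × Fin N, a p.1 * a p.2 =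
      ∑ p : Fin N × Fin N, (if p.1 < p.2 then a p.1 * a p.2 else 0) +
      ∑ p : Fin N × Fin N, (if p.2 < p.1 then a p.1 * a p.2 else 0) +
      ∑ p : Fin N × Fin N, (if p.1 = p.2 then a p.1 * a p.2 else 0) := by
    rw [← Finset.sum_add_distrib, ← Finset.sum_add_distrib]
    refine Finset.sum_congr rfl fun p _ => ?_
    rcases lt_trichotomy p.1 p.2 with h | h | h
    · simp [h, h.ne, not_lt.2 h.le]
    · simp [h]
    · simp [h, h.ne', not_lt.2 h.le]
  have h3 : ∑ p : Fin N × Fin N, (if p.2 < p.1 then a p.1 * a p.2 else 0) =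
      ∑ p : Fin N × Fin N, (if p.1 < p.2 then a p.1 * a p.2 else 0) := by
    refine Fintype.sum_equiv (Equiv.prodComm _ _) _ _ fun p => ?_
    simp only [Equiv.prodComm_apply, Prod.fst_swap, Prod.snd_swap]
    by_cases h : p.2 < p.1
    · simp [h, mul_comm]
    · simp [h]
  have h4 : ∑ p : Fin N × Fin N, (if p.1 = p.2 then a p.1 * a p.2 else 0) = ∑ i, a i ^ 2 := by
    rw [Fintype.sum_prod_type]
    refine Finset.sum_congr rfl fun i _ => ?_
    simp [pow_two]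
  rw [h1]
  rw [h3, h4] at h2
  linarith

lemma dot_vSK {N : ℕ} (hN : 0 < N) (β : ℝ) (σ τ : Fin N → Fin 2) :
    dot (vSK N β σ) (vSK N β τ) = β ^ 2 / 2 * (qSK N σ τ - 1) := by
  have hN' : (0 : ℝ) < N := by exact_mod_cast hN
  have hs : √(N : ℝ) ^ 2 = N := Real.sq_sqrt hN'.le
  have hs0 : √(N : ℝ) ≠ 0 := (Real.sqrt_pos.2 hN').ne'
  have h1 : dot (vSK N β σ) (vSK N β τ) = β ^ 2 / N * ∑ p : Fin N × Fin N,
      (if p.1 < p.2 then (sp (σ p.1) * sp (τ p.1)) * (sp (σ p.2) * sp (τ p.2)) else 0) := by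
    unfold dot vSK
    rw [Finset.mul_sum]
    refine Finset.sum_congr rfl fun p _ => ?_
    split_ifs
    · have h5 : β / √(N : ℝ) * (β / √(N : ℝ)) = β ^ 2 / N := by
        rw [div_mul_div_comm, ← pow_two, ← pow_two, hs]
      calc β / √(N : ℝ) * (sp (σ p.1) * sp (σ p.2)) * (β / √(N : ℝ) * (sp (τ p.1) * sp (τ p.2)))
          = (β / √(N : ℝ) * (β / √(N : ℝ))) *
            ((sp (σ p.1) * sp (τ p.1)) * (sp (σ p.2) * sp (τ p.2))) := by ring
        _ = _ := by rw [h5]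
    · simp
  rw [h1, sum_offdiag N (fun i => sp (σ i) * sp (τ i))]
  have h2 : ∑ i, (sp (σ i) * sp (τ i)) ^ 2 = N := by
    have : ∀ i, (sp (σ i) * sp (τ i)) ^ 2 = 1 := by
      intro i
      have e1 := sp_sq (σ i)
      have e2 := sp_sq (τ i)
      calc (sp (σ i) * sp (τ i)) ^ 2 = (sp (σ i) * sp (σ i)) * (sp (τ i) * sp (τ i)) := by ring
        _ = 1 := by rw [e1, e2, one_mul]
    simp [this]
  rw [h2]
  unfold qSK
  field_simp

lemma qSK_self {N : ℕ} (hN : 0 < N) (σ : Fin N → Fin 2) : qSK N σ σ = N := by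
  have hN' : (0 : ℝ) < N := by exact_mod_cast hN
  unfold qSK
  simp only [sp_sq]
  simp
  field_simp

lemma qSK_nonneg (N : ℕ) (σ τ : Fin N → Fin 2) : 0 ≤ qSK N σ τ := by
  unfold qSK; positivity

lemma dot_vSK_self {N : ℕ} (hN : 0 < N) (β : ℝ) (σ : Fin N → Fin 2) :
    dot (vSK N β σ) (vSK N β σ) = β ^ 2 / 2 * (N - 1) := by
  rw [dot_vSK hN, qSK_self hN]

/-- gauge transformation -/
noncomputable def gauge (N : ℕ) (η : Fin N → Fin 2) (x : Fin N × Fin N → ℝ) : Fin N × Fin N → ℝ :=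
  fun p => (sp (η p.1) * sp (η p.2)) * x p

lemma gauge_mp (N : ℕ) (η : Fin N → Fin 2) :
    MeasurePreserving (gauge N η) (gam (Fin N × Fin N)) (gam (Fin N × Fin N)) := by
  unfold gauge
  refine measurePreserving_pi (fun _ : Fin N × Fin N => gaussianReal 0 1)
    (fun _ : Fin N × Fin N => gaussianReal 0 1) (f := fun p t => (sp (η p.1) * sp (η p.2)) * t)
    fun p => ?_
  refine ⟨by fun_prop, ?_⟩
  rw [gaussianReal_map_const_mul]
  congr 1
  · simp
  · have e1 := sp_sq (η p.1)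
    have e2 := sp_sq (η p.2)
    have : (sp (η p.1) * sp (η p.2)) ^ 2 = 1 := by
      calc (sp (η p.1) * sp (η p.2)) ^ 2 =
          (sp (η p.1) * sp (η p.1)) * (sp (η p.2) * sp (η p.2)) := by ring
        _ = 1 := by rw [e1, e2, one_mul]
    ext
    simp [this]

lemma dot_gauge (N : ℕ) (β : ℝ) (η σ : Fin N → Fin 2) (x : Fin N × Fin N → ℝ) :
    dot (gauge N η x) (vSK N β σ) = dot x (vSK N β (σ + η)) := by
  unfold dot gauge vSK
  refine Finset.sum_congr rfl fun p _ => ?_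
  split_ifs
  · simp only [Pi.add_apply, sp_add]
    ring
  · simp

lemma Gb_gauge (N : ℕ) (β : ℝ) (η σ : Fin N → Fin 2) (x : Fin N × Fin N → ℝ) :
    Gb (0 : (Fin N → Fin 2) → ℝ) (vSK N β) (gauge N η x) σ =
      Gb (0 : (Fin N → Fin 2) → ℝ) (vSK N β) x (σ + η) := by
  unfold Gb
  rw [dot_gauge]
  congr 1
  unfold Z
  refine Fintype.sum_equiv (Equiv.addRight η) _ _ fun τ => ?_
  rw [dot_gauge]
  simp

lemma integral_Gb_SK (N : ℕ) (β : ℝ) (σ : Fin N → Fin 2) :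
    ∫ x, Gb (0 : (Fin N → Fin 2) → ℝ) (vSK N β) x σ ∂(gam (Fin N × Fin N)) =
      1 / Fintype.card (Fin N → Fin 2) := by
  have hconst : ∀ τ, ∫ x, Gb (0 : (Fin N → Fin 2) → ℝ) (vSK N β) x τ ∂(gam (Fin N × Fin N)) =
      ∫ x, Gb (0 : (Fin N → Fin 2) → ℝ) (vSK N β) x σ ∂(gam (Fin N × Fin N)) := by
    intro τ
    have h := mp_integral (gauge_mp N (τ - σ))
      (g := fun x => Gb (0 : (Fin N → Fin 2) → ℝ) (vSK N β) x σ)
      (continuous_Gb _ _ σ).aestronglyMeasurable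
    rw [← h]
    congr 1
    ext x
    rw [Gb_gauge, add_sub_cancel]
  have hsum : ∑ τ, ∫ x, Gb (0 : (Fin N → Fin 2) → ℝ) (vSK N β) x τ ∂(gam (Fin N × Fin N)) = 1 := by
    rw [← integral_finsetSum _ fun τ _ => integrable_Gb _ _ τ]
    simp_rw [sum_Gb]
    simp
  simp_rw [hconst] at hsum
  rw [Finset.sum_const, nsmul_eq_mul, Finset.card_univ] at hsum
  have hc : (Fintype.card (Fin N → Fin 2) : ℝ) ≠ 0 := by
    exact_mod_cast Fintype.card_ne_zero
  field_simp
  linarith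

end Pool.Agent.Lib_755967
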