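import Mathlib
import Pool.Agent.Lib_755967.Gauss
import Pool.Agent.Lib_755967.Stein
import Pool.Agent.Lib_755967.Lse
import Pool.Agent.Lib_755967.Interp
import Pool.Agent.Lib_755967.Tau
import Pool.Agent.Lib_755967.Neg
import Pool.Agent.Lib_755967.Corr
import Pool.Agent.Lib_755967.Smooth
import Pool.Agent.Lib_755967.Couple
import Pool.Agent.Lib_755967.SK

set_option autoImplicit false

open MeasureTheory ProbabilityTheory Real
open scoped ENNReal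

namespace Pool.Agent.Lib_755967

lemma pdf_mul_exp (z : ℝ) : gaussianPDFReal 0 1 z * rexp (z ^ 2 / 4) =
    (√(2 * π))⁻¹ * rexp (-(1 / 4) * z ^ 2) := by
  rw [gaussianPDFReal_def]
  simp only [NNReal.coe_one, mul_one, sub_zero]
  rw [mul_assoc, ← Real.exp_add]
  congr 2
  ring

lemma integrable_exp_sq : Integrable (fun z : ℝ => rexp (z ^ 2 / 4)) (gaussianReal 0 1) := by
  rw [gaussianReal_of_var_ne_zero 0 (by norm_num)]
  unfold gaussianPDF
  rw [integrable_withDensity_iff_integrable_smul' (by fun_prop) (by simp)]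
  have h := (integrable_exp_neg_mul_sq (b := 1 / 4) (by norm_num)).const_mul ((√(2 * π))⁻¹)
  refine h.congr (Filter.Eventually.of_forall fun z => ?_)
  simp only [smul_eq_mul]
  rw [ENNReal.toReal_ofReal (gaussianPDFReal_nonneg _ _ _), pdf_mul_exp]

lemma integral_exp_sq_le : ∫ z : ℝ, rexp (z ^ 2 / 4) ∂(gaussianReal 0 1) ≤ 2 := by
  rw [integral_gaussianReal_eq_integral_smul (by norm_num)]
  simp only [smul_eq_mul, pdf_mul_exp]
  rw [integral_const_mul, integral_gaussian]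
  have h1 : 0 < √(2 * π) := Real.sqrt_pos.2 (by positivity)
  rw [inv_mul_le_iff₀ h1]
  have h2 : π / (1 / 4) = 2 * (2 * π) := by ring
  rw [h2, Real.sqrt_mul (by norm_num), mul_comm]
  refine mul_le_mul_of_nonneg_left ?_ h1.le
  rw [Real.sqrt_le_left (by norm_num)]
  norm_num

lemma sum_exp_spin (N : ℕ) (a : ℝ) :
    ∑ τ : Fin N → Fin 2, rexp (a * ∑ i, sp (τ i)) ≤ (2 : ℝ) ^ N * rexp (N * (a ^ 2 / 2)) := by
  have h1 : ∀ τ : Fin N → Fin 2, rexp (a * ∑ i, sp (τ i)) = ∏ i, rexp (a * sp (τ i)) := by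
    intro τ
    rw [Finset.mul_sum, Real.exp_sum]
  simp_rw [h1]
  have h2 := Finset.prod_univ_sum (fun _ : Fin N => (Finset.univ : Finset (Fin 2)))
    (fun _ e => rexp (a * sp e))
  rw [Fintype.piFinset_univ] at h2
  rw [← h2]
  have h3 : ∑ e : Fin 2, rexp (a * sp e) ≤ 2 * rexp (a ^ 2 / 2) := by
    have h4 : ∑ e : Fin 2, rexp (a * sp e) = 2 * Real.cosh a := by
      rw [Fin.sum_univ_two, Real.cosh_eq]
      unfold sp
      simp
      ring
    rw [h4]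
    have := Real.cosh_le_exp_half_sq a
    linarith
  calc ∏ _i : Fin N, ∑ e : Fin 2, rexp (a * sp e) ≤ ∏ _i : Fin N, (2 * rexp (a ^ 2 / 2)) :=
        Finset.prod_le_prod (fun i _ => Finset.sum_nonneg fun e _ => (exp_pos _).le) fun i _ => h3
    _ = (2 : ℝ) ^ N * rexp (N * (a ^ 2 / 2)) := by
        rw [Finset.prod_const, Finset.card_univ, Fintype.card_fin, mul_pow, ← Real.exp_nat_mul]

lemma exp_sq_eq (B : ℝ) : rexp (B ^ 2 / 4) = ∫ z : ℝ, rexp ((B / √2) * z) ∂(gaussianReal 0 1) := by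
  have := mgf_gaussianReal (p := gaussianReal 0 1) (X := id) (μ := 0) (v := 1) (by simp) (B / √2)
  unfold mgf at this
  simp only [id, zero_mul, zero_add, NNReal.coe_one, one_mul] at this
  rw [this, div_pow, Real.sq_sqrt (by norm_num)]
  congr 1
  ring

lemma sum_exp_q {N : ℕ} (hN : 0 < N) :
    ∑ τ : Fin N → Fin 2, rexp ((∑ i, sp (τ i)) ^ 2 / N / 4) ≤ 2 * (2 : ℝ) ^ N := by
  have hN' : (0 : ℝ) < N := by exact_mod_cast hN
  have hs : √(N : ℝ) ^ 2 = N := Real.sq_sqrt hN'.le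
  have hs0 : 0 < √(N : ℝ) := Real.sqrt_pos.2 hN'
  have h1 : ∀ τ : Fin N → Fin 2, rexp ((∑ i, sp (τ i)) ^ 2 / N / 4) =
      ∫ z : ℝ, rexp ((z / (√(N : ℝ) * √2)) * ∑ i, sp (τ i)) ∂(gaussianReal 0 1) := by
    intro τ
    have h2 := exp_sq_eq ((∑ i, sp (τ i)) / √(N : ℝ))
    rw [div_pow, hs] at h2
    rw [h2]
    congr 1
    ext z
    congr 1
    field_simp
  simp_rw [h1]
  have hi : ∀ τ : Fin N → Fin 2, Integrable (fun z : ℝ =>
      rexp ((z / (√(N : ℝ) * √2)) * ∑ i, sp (τ i))) (gaussianReal 0 1) := by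
    intro τ
    have := integrable_exp_mul_gaussianReal (μ := 0) (v := 1) ((∑ i, sp (τ i)) / (√(N : ℝ) * √2))
    refine this.congr (Filter.Eventually.of_forall fun z => ?_)
    simp only
    congr 1
    ring
  rw [← integral_finsetSum _ fun τ _ => hi τ]
  calc ∫ z : ℝ, ∑ τ : Fin N → Fin 2, rexp ((z / (√(N : ℝ) * √2)) * ∑ i, sp (τ i))
        ∂(gaussianReal 0 1)
      ≤ ∫ z : ℝ, (2 : ℝ) ^ N * rexp (z ^ 2 / 4) ∂(gaussianReal 0 1) := by
        refine integral_mono (integrable_finsetSum _ fun τ _ => hi τ)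
          (integrable_exp_sq.const_mul _) fun z => ?_
        simp only
        refine (sum_exp_spin N _).trans (le_of_eq ?_)
        congr 2
        rw [div_pow, mul_pow, hs, Real.sq_sqrt (by norm_num)]
        field_simp
        norm_num
    _ = (2 : ℝ) ^ N * ∫ z : ℝ, rexp (z ^ 2 / 4) ∂(gaussianReal 0 1) := integral_const_mul _ _
    _ ≤ (2 : ℝ) ^ N * 2 := mul_le_mul_of_nonneg_left integral_exp_sq_le (by positivity)
    _ = 2 * (2 : ℝ) ^ N := by ring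

lemma K0_bound {N : ℕ} (hN : 0 < N) :
    log ((∑ σ, ∑ τ, rexp ((1 / 4) * qSK N σ τ)) / (Fintype.card (Fin N → Fin 2) : ℝ) ^ 2) ≤ 1 := by
  have hcard : (Fintype.card (Fin N → Fin 2) : ℝ) = (2 : ℝ) ^ N := by
    rw [Fintype.card_fun, Fintype.card_fin, Fintype.card_fin]
    push_cast
    ring
  have h1 : ∀ σ : Fin N → Fin 2, ∑ τ, rexp ((1 / 4) * qSK N σ τ) ≤ 2 * (2 : ℝ) ^ N := by
    intro σ
    have h2 : ∑ τ, rexp ((1 / 4) * qSK N σ τ) =
        ∑ τ : Fin N → Fin 2, rexp ((∑ i, sp (τ i)) ^ 2 / N / 4) := by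
      symm
      refine Fintype.sum_equiv (Equiv.addRight σ) _ _ fun τ => ?_
      unfold qSK
      congr 1
      simp only [Equiv.coe_addRight, Pi.add_apply]
      have : ∀ i, sp (σ i) * sp (τ i + σ i) = sp (τ i) := by
        intro i
        rw [sp_add]
        calc sp (σ i) * (sp (τ i) * sp (σ i)) = sp (τ i) * (sp (σ i) * sp (σ i)) := by ring
          _ = sp (τ i) := by rw [sp_sq, mul_one]
      simp_rw [this]
      ring
    rw [h2]
    exact sum_exp_q hN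
  have h3 : (∑ σ : Fin N → Fin 2, ∑ τ, rexp ((1 / 4) * qSK N σ τ)) /
      (Fintype.card (Fin N → Fin 2) : ℝ) ^ 2 ≤ 2 := by
    rw [hcard, div_le_iff₀ (by positivity)]
    calc ∑ σ : Fin N → Fin 2, ∑ τ, rexp ((1 / 4) * qSK N σ τ)
        ≤ ∑ _σ : Fin N → Fin 2, 2 * (2 : ℝ) ^ N := Finset.sum_le_sum fun σ _ => h1 σ
      _ = 2 * ((2 : ℝ) ^ N) ^ 2 := by
          rw [Finset.sum_const, Finset.card_univ, nsmul_eq_mul, hcard]
          ring
  have h4 : 0 < (∑ σ : Fin N → Fin 2, ∑ τ, rexp ((1 / 4) * qSK N σ τ)) /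
      (Fintype.card (Fin N → Fin 2) : ℝ) ^ 2 := by
    refine div_pos (Finset.sum_pos (fun σ _ => Finset.sum_pos (fun τ _ => exp_pos _)
      Finset.univ_nonempty) Finset.univ_nonempty) (by rw [hcard]; positivity)
  have h5 := Real.log_le_log h4 h3
  have h6 : log 2 ≤ 1 := by
    have := Real.log_two_lt_d9
    linarith
  linarith

/-- total correlation of the gradient -/
noncomputable def BB (N : ℕ) (β ρ : ℝ) : ℝ :=
  ∑ i, E2 (Mg (0 : (Fin N → Fin 2) → ℝ) (vSK N β) i) ρ (√(1 - ρ ^ 2))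

lemma BB_small {N : ℕ} (hN : 0 < N) {β ρ : ℝ} (hρ0 : 0 ≤ ρ) (hρ1 : ρ ≤ 1)
    (hρ : β ^ 2 * ρ ≤ 1 / 4) : BB N β ρ ≤ 4 * β ^ 2 := by
  have hk : (0 : ℝ) ≤ β ^ 2 / 2 := by positivity
  have h1 := couple_main (vSK N β) (qSK N) hk (qSK_nonneg N) (dot_vSK hN β) (1 / 4)
    (integral_Gb_SK N β) (Real.arccos_nonneg ρ) (Real.arccos_le_pi_div_two.2 hρ0)
  rw [Real.cos_arccos (by linarith) hρ1, Real.sin_arccos] at h1
  have h2 := h1.trans (K0_bound hN)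
  unfold BB
  rw [sum_E2_eq (vSK N β) (qSK N) (dot_vSK hN β)]
  have h3 : 1 / 8 ≤ 1 / 4 - β ^ 2 / 2 * ρ := by nlinarith
  have hE : Eq (vSK N β) (qSK N) ρ (√(1 - ρ ^ 2)) ≤ 8 := by
    by_contra hc
    push Not at hc
    nlinarith
  nlinarith

lemma Mg_sq_sum_le {N : ℕ} (hN : 0 < N) (β : ℝ) (x : Fin N × Fin N → ℝ) :
    ∑ i, Mg (0 : (Fin N → Fin 2) → ℝ) (vSK N β) i x ^ 2 ≤ β ^ 2 / 2 * N := by
  set g := Gb (0 : (Fin N → Fin 2) → ℝ) (vSK N β) x with hg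
  have h1 : ∑ σ, g σ = 1 := sum_Gb _ _ _
  have e1 : ∑ i, Mg (0 : (Fin N → Fin 2) → ℝ) (vSK N β) i x ^ 2 =
      ∑ σ, ∑ τ, g σ * g τ * dot (vSK N β σ) (vSK N β τ) := by
    unfold Mg dot
    simp_rw [pow_two, Finset.sum_mul_sum, Finset.mul_sum]
    rw [Finset.sum_comm]
    refine Finset.sum_congr rfl fun σ _ => ?_
    rw [Finset.sum_comm]
    exact Finset.sum_congr rfl fun τ _ => Finset.sum_congr rfl fun i _ => by ring
  have h2 : ∀ σ τ, dot (vSK N β σ) (vSK N β τ) ≤ β ^ 2 / 2 * N := by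
    intro σ τ
    have h3 : 0 ≤ dot (vSK N β σ - vSK N β τ) (vSK N β σ - vSK N β τ) := by
      unfold dot
      exact Finset.sum_nonneg fun i _ => mul_self_nonneg _
    rw [dot_sub_left, dot_comm (vSK N β σ), dot_comm (vSK N β τ), dot_sub_left, dot_sub_left,
      dot_vSK_self hN, dot_vSK_self hN, dot_comm (vSK N β τ) (vSK N β σ)] at h3
    have : 0 ≤ β ^ 2 / 2 := by positivity
    nlinarith
  rw [e1]
  calc ∑ σ, ∑ τ, g σ * g τ * dot (vSK N β σ) (vSK N β τ)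
      ≤ ∑ σ, ∑ τ, g σ * g τ * (β ^ 2 / 2 * N) := by
        refine Finset.sum_le_sum fun σ _ => Finset.sum_le_sum fun τ _ => ?_
        exact mul_le_mul_of_nonneg_left (h2 σ τ)
          (mul_nonneg (Gb_nonneg _ _ _ _) (Gb_nonneg _ _ _ _))
    _ = β ^ 2 / 2 * N := by
        simp_rw [← Finset.sum_mul, ← Finset.mul_sum, h1, mul_one]
        rw [h1, one_mul]

lemma BB_rec {N : ℕ} (hN : 0 < N) {β ρ l : ℝ} (hρ0 : 0 ≤ ρ) (hρ1 : ρ < 1) (hl : 0 < l) :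
    BB N β ρ ≤ l / 2 * (β ^ 2 / 2 * N) + 1 / (2 * l) * BB N β (ρ ^ 2) := by
  obtain ⟨C, hC⟩ := exists_bound2 (vSK N β)
  have hρ2 : ρ ^ 2 < 1 := by nlinarith
  have hρ4 : (ρ ^ 2) ^ 2 < 1 := by nlinarith [sq_nonneg ρ]
  have h1 : ρ ^ 2 + √(1 - ρ ^ 2) ^ 2 = 1 := by
    rw [Real.sq_sqrt (by linarith)]; ring
  have h2 : (ρ ^ 2) ^ 2 + √(1 - (ρ ^ 2) ^ 2) ^ 2 = 1 := by
    rw [Real.sq_sqrt (by linarith)]; ring
  have h3 : √(1 - (ρ ^ 2) ^ 2) ≠ 0 := (Real.sqrt_pos.2 (by linarith)).ne'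
  have key : ∀ i, E2 (Mg (0 : (Fin N → Fin 2) → ℝ) (vSK N β) i) ρ (√(1 - ρ ^ 2)) ≤
      l / 2 * ∫ x, Mg (0 : (Fin N → Fin 2) → ℝ) (vSK N β) i x ^ 2 ∂(gam (Fin N × Fin N)) +
      1 / (2 * l) * E2 (Mg (0 : (Fin N → Fin 2) → ℝ) (vSK N β) i) (ρ ^ 2)
        (√(1 - (ρ ^ 2) ^ 2)) := fun i =>
    E2_rec (continuous_Mg _ _ i).measurable (fun x => abs_Mg_le hC i x) h1 h3 h2 hl
  have hint : ∀ i, Integrable (fun x => Mg (0 : (Fin N → Fin 2) → ℝ) (vSK N β) i x ^ 2)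
      (gam (Fin N × Fin N)) := fun i =>
    integrable_bdd (C := C ^ 2) ((continuous_Mg _ _ i).measurable.pow_const 2) (fun p => by
        rw [abs_pow]; exact pow_le_pow_left₀ (abs_nonneg _) (abs_Mg_le hC i p) 2)
  unfold BB
  refine (Finset.sum_le_sum fun i _ => key i).trans ?_
  rw [Finset.sum_add_distrib, ← Finset.mul_sum, ← Finset.mul_sum,
    ← integral_finsetSum _ fun i _ => hint i]
  have h4 : ∫ x, ∑ i, Mg (0 : (Fin N → Fin 2) → ℝ) (vSK N β) i x ^ 2 ∂(gam (Fin N × Fin N)) ≤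
      β ^ 2 / 2 * N := by
    calc ∫ x, ∑ i, Mg (0 : (Fin N → Fin 2) → ℝ) (vSK N β) i x ^ 2 ∂(gam (Fin N × Fin N))
        ≤ ∫ _x, β ^ 2 / 2 * N ∂(gam (Fin N × Fin N)) :=
          integral_mono (integrable_finsetSum _ fun i _ => hint i) (integrable_const _)
            fun x => Mg_sq_sum_le hN β x
      _ = β ^ 2 / 2 * N := by simp
  have h5 : l / 2 * ∫ x, ∑ i, Mg (0 : (Fin N → Fin 2) → ℝ) (vSK N β) i x ^ 2
      ∂(gam (Fin N × Fin N)) ≤ l / 2 * (β ^ 2 / 2 * N) :=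
    mul_le_mul_of_nonneg_left h4 (by positivity)
  linarith

/-- disorder chaos: the correlation of the gradients is `o(N)`. -/
lemma chaos {β : ℝ} (hβ : 0 < β) {ρ : ℝ} (hρ0 : 0 ≤ ρ) (hρ1 : ρ < 1) :
    ∀ ε > 0, ∃ N₀ : ℕ, ∀ N ≥ N₀, BB N β ρ ≤ ε * N := by
  have hmain : ∀ (n : ℕ) (ρ : ℝ), 0 ≤ ρ → ρ < 1 → β ^ 2 * ρ ^ (2 ^ n) ≤ 1 / 4 →
      ∀ ε > 0, ∃ N₀ : ℕ, ∀ N ≥ N₀, BB N β ρ ≤ ε * N := by
    intro n
    induction n with
    | zero =>
      intro ρ h0 h1 h2 ε hε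
      rw [pow_zero, pow_one] at h2
      obtain ⟨N₁, hN₁⟩ := exists_nat_ge (4 * β ^ 2 / ε)
      refine ⟨max N₁ 1, fun N hN => ?_⟩
      have hN0 : 0 < N := lt_of_lt_of_le one_pos ((le_max_right _ _).trans hN)
      refine (BB_small hN0 h0 h1.le h2).trans ?_
      have h3 : (N₁ : ℝ) ≤ N := by exact_mod_cast (le_max_left _ _).trans hN
      rw [div_le_iff₀ hε] at hN₁
      nlinarith
    | succ n ih =>
      intro ρ h0 h1 h2 ε hε
      have h3 : ρ ^ 2 < 1 := by nlinarith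
      have h4 : β ^ 2 * (ρ ^ 2) ^ (2 ^ n) ≤ 1 / 4 := by
        have h40 : 2 ^ (n + 1) = 2 * 2 ^ n := by ring
        rw [← pow_mul, ← h40]
        exact h2
      set l : ℝ := ε / (β ^ 2 / 2) with hl
      have hlpos : 0 < l := by positivity
      obtain ⟨N₁, hN₁⟩ := ih (ρ ^ 2) (by positivity) h3 h4 (l * ε) (by positivity)
      refine ⟨max N₁ 1, fun N hN => ?_⟩
      have hN0 : 0 < N := lt_of_lt_of_le one_pos ((le_max_right _ _).trans hN)
      have h5 := BB_rec hN0 (β := β) h0 h1 hlpos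
      have h6 := hN₁ N ((le_max_left _ _).trans hN)
      have h7 : l / 2 * (β ^ 2 / 2 * N) = ε / 2 * N := by
        rw [hl]; field_simp
      have h8 : 1 / (2 * l) * BB N β (ρ ^ 2) ≤ 1 / (2 * l) * (l * ε * N) :=
        mul_le_mul_of_nonneg_left h6 (by positivity)
      have h9 : 1 / (2 * l) * (l * ε * N) = ε / 2 * N := by field_simp
      rw [h7] at h5
      rw [h9] at h8
      linarith
  -- choose n
  have hex : ∃ n : ℕ, β ^ 2 * ρ ^ (2 ^ n) ≤ 1 / 4 := by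
    have h1 : Filter.Tendsto (fun n : ℕ => β ^ 2 * ρ ^ n) Filter.atTop (nhds (β ^ 2 * 0)) :=
      (tendsto_pow_atTop_nhds_zero_of_lt_one hρ0 hρ1).const_mul _
    rw [mul_zero] at h1
    obtain ⟨n, hn⟩ := Filter.eventually_atTop.1 (h1.eventually (ge_mem_nhds (by norm_num : (0:ℝ) < 1 / 4)))
    exact ⟨n, hn (2 ^ n) (Nat.lt_two_pow_self).le⟩
  obtain ⟨n, hn⟩ := hex
  exact hmain n ρ hρ0 hρ1 hn

end Pool.Agent.Lib_755967
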