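import Mathlib
import Pool.Agent.Lib_755967.Gauss
import Pool.Agent.Lib_755967.Stein
import Pool.Agent.Lib_755967.Lse
import Pool.Agent.Lib_755967.Interp
import Pool.Agent.Lib_755967.Tau
import Pool.Agent.Lib_755967.Neg
import Pool.Agent.Lib_755967.Corr
import Pool.Agent.Lib_755967.Smooth
import Pool.Agent.Lib_755967.Couple
import Pool.Agent.Lib_755967.SK

set_option autoImplicit false

open MeasureTheory ProbabilityTheory Real
open scoped ENNReal

namespace Pool.Agent.Lib_755967

section compare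

variable {ι : Type*} [Fintype ι] {κ : Type*} [Fintype κ] {S : Type*} [Fintype S] [Nonempty S]

/-- Gaussian comparison for the free energy. -/
lemma compare (v : S → ι → ℝ) (w : S → κ → ℝ)
    (h : ∀ σ τ, dot (w σ) (w σ) - dot (w σ) (w τ) ≤ dot (v σ) (v σ) - dot (v σ) (v τ)) :
    ∫ y, L (0 : S → ℝ) w y ∂(gam κ) ≤ ∫ x, L (0 : S → ℝ) v x ∂(gam ι) := by
  obtain ⟨C₁, hC₁0, hC₁⟩ := finset_bound v
  obtain ⟨C₂, hC₂0, hC₂⟩ := finset_bound w
  set V : ℝ → S → ι ⊕ κ → ℝ := fun θ σ => Sum.elim (Real.sin θ • v σ) (Real.cos θ • w σ) with hVdef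
  set V' : ℝ → S → ι ⊕ κ → ℝ := fun θ σ => Sum.elim (Real.cos θ • v σ) (-Real.sin θ • w σ) with hV'def
  have hW : ∀ (θ : ℝ) (σ : S), HasDerivAt (fun _ : ℝ => (0 : S → ℝ) σ) ((0 : S → ℝ) σ) θ := by
    intro θ σ
    simpa using hasDerivAt_const θ (0 : ℝ)
  have hV : ∀ θ σ i, HasDerivAt (fun θ => V θ σ i) (V' θ σ i) θ := by
    intro θ σ i
    cases i with
    | inl i =>
      simp only [V, V', Sum.elim_inl, Pi.smul_apply, smul_eq_mul]
      exact (Real.hasDerivAt_sin θ).mul_const (v σ i)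
    | inr i =>
      simp only [V, V', Sum.elim_inr, Pi.smul_apply, smul_eq_mul]
      exact (Real.hasDerivAt_cos θ).mul_const (w σ i)
  have hWb : ∀ (θ : ℝ) (σ : S), |(0 : S → ℝ) σ| ≤ C₁ + C₂ := by
    intro θ σ
    simp only [Pi.zero_apply, abs_zero]
    positivity
  have hVb : ∀ θ σ i, |V' θ σ i| ≤ C₁ + C₂ := by
    intro θ σ i
    cases i with
    | inl i =>
      simp only [V', Sum.elim_inl, Pi.smul_apply, smul_eq_mul]
      rw [abs_mul]
      have h2 := Real.abs_cos_le_one θ
      calc |Real.cos θ| * |v σ i| ≤ 1 * C₁ := mul_le_mul h2 (hC₁ _ _) (abs_nonneg _) (by norm_num)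
        _ ≤ C₁ + C₂ := by linarith
    | inr i =>
      simp only [V', Sum.elim_inr, Pi.smul_apply, smul_eq_mul]
      rw [abs_mul, abs_neg]
      have h2 := Real.abs_sin_le_one θ
      calc |Real.sin θ| * |w σ i| ≤ 1 * C₂ := mul_le_mul h2 (hC₂ _ _) (abs_nonneg _) (by norm_num)
        _ ≤ C₁ + C₂ := by linarith
  have hI := interp (W := fun _ => (0 : S → ℝ)) (W' := fun _ => (0 : S → ℝ)) hW hV hWb hVb
  have hdot : ∀ θ (a b : S), dot (V' θ a) (V θ b) =
      Real.sin θ * Real.cos θ * (dot (v a) (v b) - dot (w a) (w b)) := by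
    intro θ a b
    simp only [V, V']
    rw [dot_elim, dot_smul_left, dot_smul_left, dot_smul_right, dot_smul_right]
    ring
  have hval : ∀ θ x, (∑ a, Gb (0 : S → ℝ) (V θ) x a * ((0 : S → ℝ) a + dot (V' θ a) (V θ a))
        - ∑ a, ∑ b, Gb (0 : S → ℝ) (V θ) x a * Gb (0 : S → ℝ) (V θ) x b *
          dot (V' θ a) (V θ b)) =
      Real.sin θ * Real.cos θ * ∑ a, ∑ b, Gb (0 : S → ℝ) (V θ) x a *
        Gb (0 : S → ℝ) (V θ) x b * ((dot (v a) (v a) - dot (v a) (v b)) -
          (dot (w a) (w a) - dot (w a) (w b))) := by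
    intro θ x
    set g := Gb (0 : S → ℝ) (V θ) x with hg
    have hs : ∑ a, g a = 1 := sum_Gb _ _ _
    have e1 : ∑ a, g a * ((0 : S → ℝ) a + dot (V' θ a) (V θ a)) =
        ∑ a, ∑ b, g a * g b * dot (V' θ a) (V θ a) := by
      refine Finset.sum_congr rfl fun a _ => ?_
      have : ∀ b, g a * g b * dot (V' θ a) (V θ a) = (g a * dot (V' θ a) (V θ a)) * g b := by
        intro b; ring
      simp_rw [this]
      rw [← Finset.mul_sum, hs, mul_one]
      simp
    rw [e1, ← Finset.sum_sub_distrib, Finset.mul_sum]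
    refine Finset.sum_congr rfl fun a _ => ?_
    rw [← Finset.sum_sub_distrib, Finset.mul_sum]
    refine Finset.sum_congr rfl fun b _ => ?_
    rw [hdot, hdot]
    ring
  have hmono : MonotoneOn (fun θ => ∫ x, L (0 : S → ℝ) (V θ) x ∂(gam (ι ⊕ κ)))
      (Set.Icc 0 (π / 2)) := by
    refine monotoneOn_of_deriv_nonneg (convex_Icc _ _)
      (fun θ _ => (hI θ).continuousAt.continuousWithinAt)
      (fun θ _ => (hI θ).differentiableAt.differentiableWithinAt) ?_
    intro θ hθ
    rw [interior_Icc] at hθ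
    rw [(hI θ).deriv]
    refine integral_nonneg fun x => ?_
    simp only [Pi.zero_apply]
    have := hval θ x
    simp only [Pi.zero_apply] at this
    rw [this]
    have hsin : 0 ≤ Real.sin θ :=
      Real.sin_nonneg_of_nonneg_of_le_pi hθ.1.le (by linarith [hθ.2, Real.pi_pos])
    have hcos : 0 ≤ Real.cos θ :=
      Real.cos_nonneg_of_neg_pi_div_two_le_of_le (by linarith [hθ.1, Real.pi_pos]) hθ.2.le
    refine mul_nonneg (mul_nonneg hsin hcos) ?_
    exact Finset.sum_nonneg fun a _ => Finset.sum_nonneg fun b _ =>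
      mul_nonneg (mul_nonneg (Gb_nonneg _ _ _ _) (Gb_nonneg _ _ _ _)) (by
        have := h a b
        linarith)
  have hle := hmono (a := 0) (b := π / 2) ⟨le_rfl, by positivity⟩ ⟨by positivity, le_rfl⟩
    (by positivity)
  simp only at hle
  have e0 : ∫ x, L (0 : S → ℝ) (V 0) x ∂(gam (ι ⊕ κ)) = ∫ y, L (0 : S → ℝ) w y ∂(gam κ) := by
    rw [← mp_integral gam_sum (continuous_L _ _).aestronglyMeasurable]
    have : ∀ p : (ι → ℝ) × (κ → ℝ), L (0 : S → ℝ) (V 0) (Sum.elim p.1 p.2) =
        L (0 : S → ℝ) w p.2 := by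
      intro p
      unfold L Z
      congr 1
      refine Finset.sum_congr rfl fun σ _ => ?_
      simp only [V]
      rw [dot_elim, dot_smul_right, dot_smul_right, Real.sin_zero, Real.cos_zero]
      simp
    simp_rw [this]
    exact mp_integral measurePreserving_snd (continuous_L _ _).aestronglyMeasurable
  have e1 : ∫ x, L (0 : S → ℝ) (V (π / 2)) x ∂(gam (ι ⊕ κ)) =
      ∫ x, L (0 : S → ℝ) v x ∂(gam ι) := by
    rw [← mp_integral gam_sum (continuous_L _ _).aestronglyMeasurable]
    have : ∀ p : (ι → ℝ) × (κ → ℝ), L (0 : S → ℝ) (V (π / 2)) (Sum.elim p.1 p.2) =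
        L (0 : S → ℝ) v p.1 := by
      intro p
      unfold L Z
      congr 1
      refine Finset.sum_congr rfl fun σ _ => ?_
      simp only [V]
      rw [dot_elim, dot_smul_right, dot_smul_right, Real.sin_pi_div_two, Real.cos_pi_div_two]
      simp
    simp_rw [this]
    exact mp_integral measurePreserving_fst (continuous_L _ _).aestronglyMeasurable
  rw [e0, e1] at hle
  exact hle

end compare

/-- expected free energy of the SK model -/
noncomputable def EF (β : ℝ) (N : ℕ) : ℝ :=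
  ∫ x, L (0 : (Fin N → Fin 2) → ℝ) (vSK N β) x ∂(gam (Fin N × Fin N))

lemma EF_zero (β : ℝ) : EF β 0 = 0 := by
  unfold EF
  have : ∀ x, L (0 : (Fin 0 → Fin 2) → ℝ) (vSK 0 β) x = 0 := by
    intro x
    unfold L Z dot
    simp
  simp [this]

lemma titu {A B n m : ℝ} (hn : 0 < n) (hm : 0 < m) :
    (A + B) ^ 2 / (n + m) ≤ A ^ 2 / n + B ^ 2 / m := by
  rw [div_add_div _ _ hn.ne' hm.ne', div_le_div_iff₀ (by positivity) (by positivity)]
  nlinarith [sq_nonneg (A * m - B * n), mul_pos hn hm]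

lemma EF_superadd (β : ℝ) (N M : ℕ) : EF β N + EF β M ≤ EF β (N + M) := by
  rcases Nat.eq_zero_or_pos N with rfl | hN
  · rw [EF_zero, zero_add, zero_add]
  rcases Nat.eq_zero_or_pos M with rfl | hM
  · rw [EF_zero, add_zero, add_zero]
  have hNM : 0 < N + M := by omega
  -- split of configurations
  let s1 : (Fin (N + M) → Fin 2) → (Fin N → Fin 2) := fun σ i => σ (Fin.castAdd M i)
  let s2 : (Fin (N + M) → Fin 2) → (Fin M → Fin 2) := fun σ i => σ (Fin.natAdd N i)
  let w : (Fin (N + M) → Fin 2) → (Fin N × Fin N) ⊕ (Fin M × Fin M) → ℝ :=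
    fun σ => Sum.elim (vSK N β (s1 σ)) (vSK M β (s2 σ))
  have hcmp := compare (vSK (N + M) β) w ?_
  · refine le_trans (le_of_eq ?_) hcmp
    rw [← mp_integral gam_sum (continuous_L _ _).aestronglyMeasurable]
    have hdec : ∀ p : (Fin N × Fin N → ℝ) × (Fin M × Fin M → ℝ),
        L (0 : (Fin (N + M) → Fin 2) → ℝ) w (Sum.elim p.1 p.2) =
        L (0 : (Fin N → Fin 2) → ℝ) (vSK N β) p.1 + L (0 : (Fin M → Fin 2) → ℝ) (vSK M β) p.2 := by
      intro p
      unfold L
      rw [← Real.log_mul (Z_pos _ _ _).ne' (Z_pos _ _ _).ne']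
      congr 1
      unfold Z
      rw [Finset.sum_mul_sum, ← Fintype.sum_prod_type']
      symm
      refine Fintype.sum_equiv (Fin.appendEquiv N M) _ _ fun a => ?_
      rw [← Real.exp_add]
      congr 1
      simp only [w]
      rw [dot_elim]
      have e1 : s1 ((Fin.appendEquiv N M) a) = a.1 := by
        ext i; simp [s1]
      have e2 : s2 ((Fin.appendEquiv N M) a) = a.2 := by
        ext i; simp [s2]
      rw [e1, e2]
      simp
    simp_rw [hdec]
    have i1 : Integrable (fun p : (Fin N × Fin N → ℝ) × (Fin M × Fin M → ℝ) =>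
        L (0 : (Fin N → Fin 2) → ℝ) (vSK N β) p.1)
        ((gam (Fin N × Fin N)).prod (gam (Fin M × Fin M))) :=
      (measurePreserving_fst.integrable_comp (continuous_L _ _).aestronglyMeasurable).2
        (integrable_L _ _)
    have i2 : Integrable (fun p : (Fin N × Fin N → ℝ) × (Fin M × Fin M → ℝ) =>
        L (0 : (Fin M → Fin 2) → ℝ) (vSK M β) p.2)
        ((gam (Fin N × Fin N)).prod (gam (Fin M × Fin M))) :=
      (measurePreserving_snd.integrable_comp (continuous_L _ _).aestronglyMeasurable).2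
        (integrable_L _ _)
    rw [integral_add i1 i2]
    unfold EF
    congr 1
    · exact (mp_integral measurePreserving_fst (continuous_L _ _).aestronglyMeasurable).symm
    · exact (mp_integral measurePreserving_snd (continuous_L _ _).aestronglyMeasurable).symm
  · intro σ τ
    simp only [w]
    rw [dot_elim, dot_elim, dot_vSK hN, dot_vSK hM, dot_vSK hN, dot_vSK hM, dot_vSK hNM,
      dot_vSK hNM, qSK_self hN, qSK_self hM, qSK_self hNM]
    have hk : 0 ≤ β ^ 2 / 2 := by positivity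
    have hq : qSK (N + M) σ τ ≤ qSK N (s1 σ) (s1 τ) + qSK M (s2 σ) (s2 τ) := by
      unfold qSK
      rw [Fin.sum_univ_add]
      push_cast
      exact titu (by exact_mod_cast hN) (by exact_mod_cast hM)
    push_cast
    nlinarith

lemma EF_le (β : ℝ) (N : ℕ) : EF β N ≤ (log 2 + β ^ 2 / 4) * N := by
  rcases Nat.eq_zero_or_pos N with rfl | hN
  · rw [EF_zero]; simp
  have hK : ∀ σ, dot (vSK N β σ) (vSK N β σ) ≤ β ^ 2 / 2 * N := by
    intro σ
    rw [dot_vSK_self hN]
    have : 0 ≤ β ^ 2 / 2 := by positivity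
    nlinarith
  have h := PP_le (0 : (Fin N → Fin 2) → ℝ) (vSK N β) hK 0 1 0
  unfold PP at h
  simp only [zero_smul, one_smul, zero_add] at h
  have h0 : L (0 : (Fin N → Fin 2) → ℝ) (vSK N β) 0 = N * log 2 := by
    unfold L Z
    have : ∀ σ, dot (0 : Fin N × Fin N → ℝ) (vSK N β σ) = 0 := by
      intro σ; unfold dot; simp
    simp [this]
  rw [h0] at h
  unfold EF
  linarith

lemma EF_tendsto (β : ℝ) : ∃ l : ℝ, Filter.Tendsto (fun N : ℕ => EF β N / N) Filter.atTop (nhds l) := by
  have hsub : Subadditive (fun N => - EF β N) := by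
    intro m n
    have := EF_superadd β m n
    linarith
  have hb : BddBelow (Set.range fun n : ℕ => (- EF β n) / (n : ℝ)) := by
    refine ⟨-(log 2 + β ^ 2 / 4), ?_⟩
    rintro y ⟨n, rfl⟩
    simp only
    rcases Nat.eq_zero_or_pos n with rfl | hn
    · simp
      have := Real.log_pos (show (1:ℝ) < 2 by norm_num)
      nlinarith [sq_nonneg β]
    · have hn' : (0 : ℝ) < n := by exact_mod_cast hn
      rw [le_div_iff₀ hn']
      have := EF_le β n
      linarith
  have h := hsub.tendsto_lim hb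
  refine ⟨-hsub.lim, ?_⟩
  have h2 := h.neg
  refine h2.congr fun n => ?_
  ring

end Pool.Agent.Lib_755967
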