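import Mathlib
import Pool.Agent.Lib_755967.Gauss
import Pool.Agent.Lib_755967.Stein
import Pool.Agent.Lib_755967.Lse
import Pool.Agent.Lib_755967.Interp
import Pool.Agent.Lib_755967.Tau
import Pool.Agent.Lib_755967.Neg
import Pool.Agent.Lib_755967.Corr
import Pool.Agent.Lib_755967.Smooth
import Pool.Agent.Lib_755967.Couple
import Pool.Agent.Lib_755967.SK
import Pool.Agent.Lib_755967.Chaos
import Pool.Agent.Lib_755967.GT

set_option autoImplicit false

open MeasureTheory ProbabilityTheory Real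
open scoped ENNReal

namespace Pool.Agent.Lib_755967

lemma vSK_scale (N : ℕ) (β : ℝ) {c : ℝ} (hc : c ≠ 0) (x : Fin N × Fin N → ℝ) :
    L (0 : (Fin N → Fin 2) → ℝ) (vSK N (β / c)) (c • x) =
      L (0 : (Fin N → Fin 2) → ℝ) (vSK N β) x := by
  unfold L Z
  congr 1
  refine Finset.sum_congr rfl fun σ _ => ?_
  congr 2
  unfold dot vSK
  refine Finset.sum_congr rfl fun p _ => ?_
  simp only [Pi.smul_apply, smul_eq_mul]
  split_ifs
  · field_simp
  · simp

lemma EF_scale_le (N : ℕ) (β : ℝ) {c s : ℝ} (hc : c ≠ 0) (h : c ^ 2 + s ^ 2 = 1) :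
    EF β N ≤ EF (β / c) N := by
  unfold EF
  rw [← integral_PP_L (0 : (Fin N → Fin 2) → ℝ) (vSK N (β / c)) h]
  refine integral_mono (integrable_L _ _) (integrable_PP_L _ _ h) fun x => ?_
  rw [← vSK_scale N β hc x]
  exact le_PP _ _ _ _ _

/-- the key lower-tail bound -/
lemma neg_moment_SK {N : ℕ} (hN : 0 < N) (β : ℝ) {b c : ℝ} (hb : 0 < b) (hc0 : 0 < c)
    (hc1 : c < 1) :
    log (∫ x, rexp (-b * L (0 : (Fin N → Fin 2) → ℝ) (vSK N β) x) ∂(gam (Fin N × Fin N))) ≤
      b * ((1 - c ^ 2) * ((β / c) ^ 2 / 2 * N) / 2) - b * EF β N +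
        b ^ 2 * BB N (β / c) (c ^ 2) := by
  set s := √(1 - c ^ 2) with hs
  have hc2 : c ^ 2 < 1 := by nlinarith
  have hs2 : s ^ 2 = 1 - c ^ 2 := Real.sq_sqrt (by linarith)
  have h : c ^ 2 + s ^ 2 = 1 := by rw [hs2]; ring
  have hK : ∀ σ, dot (vSK N (β / c) σ) (vSK N (β / c) σ) ≤ (β / c) ^ 2 / 2 * N := by
    intro σ
    rw [dot_vSK_self hN]
    have : 0 ≤ (β / c) ^ 2 / 2 := by positivity
    nlinarith
  have key := smooth_bound (0 : (Fin N → Fin 2) → ℝ) (vSK N (β / c)) hK h hb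
  simp_rw [vSK_scale N β hc0.ne'] at key
  have hE := EF_scale_le N β hc0.ne' h
  unfold EF at hE
  obtain ⟨C, hC⟩ := exists_bound2 (vSK N (β / c))
  have hc4 : (c ^ 2) ^ 2 < 1 := by nlinarith [sq_nonneg c]
  have h2 : (c ^ 2) ^ 2 + √(1 - (c ^ 2) ^ 2) ^ 2 = 1 := by
    rw [Real.sq_sqrt (by linarith)]; ring
  have h3 : √(1 - (c ^ 2) ^ 2) ≠ 0 := (Real.sqrt_pos.2 (by linarith)).ne'
  have hsum : ∑ i, ∫ x, PP (Mg (0 : (Fin N → Fin 2) → ℝ) (vSK N (β / c)) i) c s x ^ 2
      ∂(gam (Fin N × Fin N)) = BB N (β / c) (c ^ 2) := by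
    unfold BB
    refine Finset.sum_congr rfl fun i _ => ?_
    exact sq_PP (continuous_Mg _ _ i).measurable (fun x => abs_Mg_le hC i x) h h3 h2
  rw [hsum] at key
  have hBB : 0 ≤ BB N (β / c) (c ^ 2) := by
    rw [← hsum]
    exact Finset.sum_nonneg fun i _ => integral_nonneg fun x => by positivity
  have h5 : b ^ 2 * (c ^ 2 * BB N (β / c) (c ^ 2)) ≤ b ^ 2 * BB N (β / c) (c ^ 2) := by
    refine mul_le_mul_of_nonneg_left ?_ (by positivity)
    nlinarith
  rw [hs2] at key
  unfold EF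
  nlinarith

lemma integrable_exp_L (N : ℕ) (β b : ℝ) (hb : 0 < b) :
    Integrable (fun x => rexp (-b * L (0 : (Fin N → Fin 2) → ℝ) (vSK N β) x))
      (gam (Fin N × Fin N)) := by
  have σ₀ : Fin N → Fin 2 := fun _ => 0
  have hlow : ∀ x, dot x (vSK N β σ₀) ≤ L (0 : (Fin N → Fin 2) → ℝ) (vSK N β) x := by
    intro x
    unfold L
    rw [Real.le_log_iff_exp_le (Z_pos _ _ _)]
    have := exp_le_Z (0 : (Fin N → Fin 2) → ℝ) (vSK N β) x σ₀
    simpa using this
  refine (integrable_exp_dot ((-b) • vSK N β σ₀)).mono' ?_ (Filter.Eventually.of_forall fun x => ?_)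
  · have := continuous_L (0 : (Fin N → Fin 2) → ℝ) (vSK N β)
    have h2 : Continuous (fun x => rexp (-b * L (0 : (Fin N → Fin 2) → ℝ) (vSK N β) x)) := by
      fun_prop
    exact h2.aestronglyMeasurable
  · rw [Real.norm_eq_abs, abs_of_pos (exp_pos _), exp_le_exp, dot_smul_right]
    have := hlow x
    nlinarith

lemma neg_moment_lower (N : ℕ) (β : ℝ) {b : ℝ} (hb : 0 < b) :
    -b * EF β N ≤
    log (∫ x, rexp (-b * L (0 : (Fin N → Fin 2) → ℝ) (vSK N β) x) ∂(gam (Fin N × Fin N))) := by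
  have hi := integrable_exp_L N β b hb
  have hL := (integrable_L (0 : (Fin N → Fin 2) → ℝ) (vSK N β)).const_mul (-b)
  have hj : rexp (∫ x, -b * L (0 : (Fin N → Fin 2) → ℝ) (vSK N β) x ∂(gam (Fin N × Fin N))) ≤
      ∫ x, rexp (-b * L (0 : (Fin N → Fin 2) → ℝ) (vSK N β) x) ∂(gam (Fin N × Fin N)) :=
    convexOn_exp.map_integral_le continuous_exp.continuousOn isClosed_univ
      (Filter.Eventually.of_forall fun x => Set.mem_univ _) hL hi
  rw [integral_const_mul] at hj
  rw [Real.le_log_iff_exp_le (integral_exp_pos hi)]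
  exact hj

/-- The main theorem: negative moments of the SK partition function are quenched. -/
theorem main {β a : ℝ} (hβ : 0 < β) (ha : a < 0) {l : ℝ}
    (hl : Filter.Tendsto (fun N : ℕ => EF β N / N) Filter.atTop (nhds l)) :
    Filter.Tendsto (fun N : ℕ => 1 / (a * N) *
      log (∫ x, rexp (a * L (0 : (Fin N → Fin 2) → ℝ) (vSK N β) x) ∂(gam (Fin N × Fin N))))
      Filter.atTop (nhds l) := by
  obtain ⟨b, hb⟩ : ∃ b : ℝ, b = -a := ⟨_, rfl⟩
  have hb0 : 0 < b := by linarith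
  have hab : a = -b := by linarith
  subst hab
  -- difference tends to zero
  have hdiff : Filter.Tendsto (fun N : ℕ => EF β N / N - 1 / (-b * N) *
      log (∫ x, rexp (-b * L (0 : (Fin N → Fin 2) → ℝ) (vSK N β) x) ∂(gam (Fin N × Fin N))))
      Filter.atTop (nhds 0) := by
    rw [Metric.tendsto_atTop]
    intro ε hε
    -- choose c
    obtain ⟨c, hc0, hc1, hc⟩ : ∃ c : ℝ, 0 < c ∧ c < 1 ∧
        (1 - c ^ 2) * ((β / c) ^ 2 / 2) / 2 ≤ ε / 4 := by
      have hcont : ContinuousAt (fun c : ℝ => (1 - c ^ 2) * ((β / c) ^ 2 / 2) / 2) 1 := by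
        refine ContinuousAt.div_const (ContinuousAt.mul (by fun_prop) ?_) _
        refine ContinuousAt.div_const (ContinuousAt.pow ?_ 2) _
        exact ContinuousAt.div continuousAt_const continuousAt_id (by norm_num)
      have hval : (fun c : ℝ => (1 - c ^ 2) * ((β / c) ^ 2 / 2) / 2) 1 = 0 := by norm_num
      unfold ContinuousAt at hcont
      rw [hval] at hcont
      have hev := hcont.eventually (gt_mem_nhds (show (0 : ℝ) < ε / 4 by positivity))
      rw [Metric.eventually_nhds_iff] at hev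
      obtain ⟨δ, hδ, hev⟩ := hev
      refine ⟨max (1 - δ / 2) (1 / 2), ?_, ?_, ?_⟩
      · exact lt_of_lt_of_le (by norm_num) (le_max_right _ _)
      · exact max_lt (by linarith) (by norm_num)
      · refine (hev ?_).le
        rw [Real.dist_eq, abs_lt]
        constructor
        · have := le_max_left (1 - δ / 2) (1 / 2)
          linarith
        · have : max (1 - δ / 2) (1 / 2) < 1 := max_lt (by linarith) (by norm_num)
          linarith
    have hβc : 0 < β / c := by positivity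
    obtain ⟨N₀, hN₀⟩ := chaos hβc (ρ := c ^ 2) (by positivity) (by nlinarith) (ε / (4 * b))
      (by positivity)
    refine ⟨max N₀ 1, fun N hN => ?_⟩
    have hN0 : 0 < N := lt_of_lt_of_le one_pos ((le_max_right _ _).trans hN)
    have hNr : (0 : ℝ) < N := by exact_mod_cast hN0
    have h1 := neg_moment_SK hN0 β hb0 hc0 hc1
    have h2 := neg_moment_lower N β hb0
    have h3 := hN₀ N ((le_max_left _ _).trans hN)
    set I := log (∫ x, rexp (-b * L (0 : (Fin N → Fin 2) → ℝ) (vSK N β) x)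
      ∂(gam (Fin N × Fin N))) with hI
    have hbN : 0 < b * N := by positivity
    have e1 : EF β N / N - 1 / (-b * N) * I = (b * EF β N + I) / (b * N) := by
      field_simp
      ring
    rw [e1, Real.dist_eq, sub_zero, abs_of_nonneg (div_nonneg (by linarith) hbN.le),
      div_lt_iff₀ hbN]
    have h4 : b ^ 2 * BB N (β / c) (c ^ 2) ≤ b ^ 2 * (ε / (4 * b) * N) :=
      mul_le_mul_of_nonneg_left h3 (by positivity)
    have h5 : b ^ 2 * (ε / (4 * b) * N) = ε / 4 * (b * N) := by field_simp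
    have h6 : b * ((1 - c ^ 2) * ((β / c) ^ 2 / 2 * N) / 2) =
        (1 - c ^ 2) * ((β / c) ^ 2 / 2) / 2 * (b * N) := by ring
    have h7 : (1 - c ^ 2) * ((β / c) ^ 2 / 2) / 2 * (b * N) ≤ ε / 4 * (b * N) :=
      mul_le_mul_of_nonneg_right hc hbN.le
    have h8 : 0 < ε * (b * N) := by positivity
    linarith
  have := hl.sub hdiff
  rw [sub_zero] at this
  refine this.congr fun N => ?_
  ring

end Pool.Agent.Lib_755967
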